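import Mathlib

/-! Chebyshev bounds (helper55). -/

set_option autoImplicit false

namespace Pool.Agent.T9h55.PI

open Finset

/-- the fourth root of a number is not smaller than a quarter of its logarithm -/
lemma log_le_root {x : ℝ} (hx : 1 ≤ x) : ∃ r : ℝ, 1 ≤ r ∧ r ^ 4 = x ∧ r ^ 2 = Real.sqrt x ∧ Real.log x ≤ 4 * r := by
  have h1 : 1 ≤ Real.sqrt x := Real.one_le_sqrt.2 hx
  have h2 : 1 ≤ Real.sqrt (Real.sqrt x) := Real.one_le_sqrt.2 h1
  have h4 : Real.sqrt (Real.sqrt x) ^ 4 = x := by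
    rw [show 4 = 2 * 2 by norm_num, pow_mul, Real.sq_sqrt (by positivity), Real.sq_sqrt (by linarith)]
  refine ⟨Real.sqrt (Real.sqrt x), h2, h4, Real.sq_sqrt (by positivity), ?_⟩
  have h3 : Real.log x = 4 * Real.log (Real.sqrt (Real.sqrt x)) := by
    conv_lhs => rw [← h4]
    rw [Real.log_pow]
    norm_num
  rw [h3]
  have := Real.log_le_sub_one_of_pos (show 0 < Real.sqrt (Real.sqrt x) by linarith)
  linarith

/-- Chebyshev's lower bound for the number of primes in `(x / 4, x]` -/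
lemma primes_lower {x : ℕ} (hx : 10 ^ 8 ≤ x) :
    1 / 8 * (x / Real.log x) ≤ (((Ioc (x / 4) x).filter Nat.Prime).card : ℝ) := by
  have hxR : (10 : ℝ) ^ 8 ≤ x := by exact_mod_cast hx
  have hx1 : (1 : ℝ) ≤ x := by linarith
  obtain ⟨r, hr1, hr4, hr2, hlog⟩ := log_le_root hx1
  have hlx : 0 < Real.log x := Real.log_pos (by linarith)
  have hr100 : 100 ≤ r := by
    by_contra h
    push Not at h
    have : r ^ 4 < 100 ^ 4 := pow_lt_pow_left₀ h (by linarith) (by norm_num)
    rw [hr4] at this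
    norm_num at this
    linarith
  have h1 := Chebyshev.theta_ge x
  have h2 := Chebyshev.theta_le_log4_mul_x (x := ((x / 4 : ℕ) : ℝ)) (Nat.cast_nonneg _)
  have h3 : ((x / 4 : ℕ) : ℝ) ≤ x / 4 := by
    have := @Nat.cast_div_le ℝ _ _ _ x 4
    simpa using this
  have hl4 : Real.log 4 = 2 * Real.log 2 := by
    rw [show (4 : ℝ) = 2 ^ 2 by norm_num, Real.log_pow]
    norm_num
  have hl2 := Real.log_two_gt_d9
  -- the difference
  have h4 : Chebyshev.theta (x : ℝ) - Chebyshev.theta ((x / 4 : ℕ) : ℝ) =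
      ∑ p ∈ (Ioc (x / 4) x).filter Nat.Prime, Real.log p := by
    unfold Chebyshev.theta
    rw [Nat.floor_natCast, Nat.floor_natCast, sub_eq_iff_eq_add]
    rw [← Finset.sum_union]
    · refine Finset.sum_congr ?_ fun _ _ => rfl
      ext p
      simp only [mem_filter, mem_Ioc, mem_union]
      constructor
      · rintro ⟨⟨h1, h2⟩, h3⟩
        by_cases h4 : p ≤ x / 4
        · exact Or.inr ⟨⟨h1, h4⟩, h3⟩
        · exact Or.inl ⟨⟨by omega, h2⟩, h3⟩
      · rintro (⟨⟨h1, h2⟩, h3⟩ | ⟨⟨h1, h2⟩, h3⟩)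
        · exact ⟨⟨by omega, h2⟩, h3⟩
        · exact ⟨⟨h1, by omega⟩, h3⟩
    · rw [Finset.disjoint_left]
      intro p h1 h2
      rw [mem_filter, mem_Ioc] at h1 h2
      omega
  have h5 : ∑ p ∈ (Ioc (x / 4) x).filter Nat.Prime, Real.log p ≤
      (((Ioc (x / 4) x).filter Nat.Prime).card : ℝ) * Real.log x := by
    rw [← nsmul_eq_mul]
    refine Finset.sum_le_card_nsmul _ _ _ fun p hp => ?_
    rw [mem_filter, mem_Ioc] at hp
    exact Real.log_le_log (by exact_mod_cast hp.2.pos) (by exact_mod_cast hp.1.2)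
  have h6 : Real.log ((x : ℝ) + 1) ≤ 4 * r + 1 := by
    have e1 : Real.log ((x : ℝ) + 1) ≤ Real.log ((x : ℝ) * 2) := Real.log_le_log (by linarith) (by linarith)
    rw [Real.log_mul (by linarith) (by norm_num)] at e1
    have := Real.log_two_lt_d9
    linarith
  have h7 : 2 * Real.sqrt x * Real.log x ≤ 8 * r ^ 3 := by
    rw [← hr2]
    nlinarith [mul_le_mul_of_nonneg_left hlog (sq_nonneg r)]
  have h8 : (1 : ℝ) / 8 * x ≤ x * Real.log 2 - (4 * r + 1) - 8 * r ^ 3 - Real.log 4 * (x / 4) := by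
    rw [hl4, ← hr4]
    have h9 : 100 * r ^ 3 ≤ r ^ 4 := by
      have : 0 ≤ r ^ 3 := by positivity
      nlinarith
    have h10 : r ≤ r ^ 3 := by
      have : 1 ≤ r ^ 2 := one_le_pow₀ hr1
      nlinarith
    nlinarith [mul_le_mul_of_nonneg_left hl2.le (show 0 ≤ r ^ 4 by positivity)]
  rw [← mul_div_assoc, div_le_iff₀ hlx]
  have h9 : Real.log 4 * ((x / 4 : ℕ) : ℝ) ≤ Real.log 4 * (x / 4) :=
    mul_le_mul_of_nonneg_left h3 (by rw [hl4]; linarith)
  linarith

/-- Chebyshev's upper bound -/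
lemma primes_upper {x : ℕ} (hx : 2 ≤ x) :
    (((Ioc 0 x).filter Nat.Prime).card : ℝ) ≤ 8 * (x / Real.log x) := by
  have hxR : (2 : ℝ) ≤ x := by exact_mod_cast hx
  have hx1 : (1 : ℝ) ≤ x := by linarith
  obtain ⟨r, hr1, hr4, hr2, hlog⟩ := log_le_root hx1
  have hlx : 0 < Real.log x := Real.log_pos (by linarith)
  have h1 := Chebyshev.pi_le_log4_mul_div (x := (x : ℝ)) (by linarith)
  rw [Nat.floor_natCast] at h1
  have h2 : (((Ioc 0 x).filter Nat.Prime).card : ℝ) = (Nat.primeCounting x : ℝ) := by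
    congr 1
    unfold Nat.primeCounting Nat.primeCounting'
    rw [Nat.count_eq_card_filter_range]
    congr 1
    ext m
    simp only [Finset.mem_filter, Finset.mem_Ioc, Finset.mem_range]
    constructor
    · rintro ⟨⟨h1, h2⟩, h3⟩
      exact ⟨by omega, h3⟩
    · rintro ⟨h1, h2⟩
      exact ⟨⟨h2.pos, by omega⟩, h2⟩
  rw [h2]
  refine h1.trans ?_
  have hls : Real.log (Real.sqrt x) = Real.log x / 2 := Real.log_sqrt (by linarith)
  have hl4 : Real.log 4 ≤ 1.4 := by
    rw [show (4 : ℝ) = 2 ^ 2 by norm_num, Real.log_pow]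
    have := Real.log_two_lt_d9
    push_cast
    linarith
  have h3 : Real.sqrt x * Real.log x ≤ 4 * x := by
    rw [← hr2]
    calc r ^ 2 * Real.log x ≤ r ^ 2 * (4 * r) := mul_le_mul_of_nonneg_left hlog (by positivity)
      _ = 4 * r ^ 3 := by ring
      _ ≤ 4 * r ^ 4 := by
          have : 0 ≤ r ^ 3 := by positivity
          nlinarith
      _ = 4 * x := by rw [hr4]
  rw [hls, ← mul_div_assoc, div_div_eq_mul_div, ← sub_nonneg]
  have h4 : 8 * (x : ℝ) / Real.log x - (Real.log 4 * x * 2 / Real.log x + Real.sqrt x) =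
      (8 * x - Real.log 4 * x * 2 - Real.sqrt x * Real.log x) / Real.log x := by
    field_simp
    ring
  rw [h4]
  refine div_nonneg ?_ hlx.le
  nlinarith

/-- the number of the elements of a residue class, given by a linear congruence -/
lemma class_upper {u v A q : ℕ} (hv : 0 < v) (huv : Nat.Coprime u v) :
    (((Ioc 0 A).filter (fun a => a * u ≡ q [MOD v])).card : ℝ) ≤ A / v + 1 := by
  have h1 : ((Ioc 0 A).filter (fun a => a * u ≡ q [MOD v])).card ≤ (range (A / v + 1)).card := by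
    refine Finset.card_le_card_of_injOn (fun a => a / v) ?_ ?_
    · intro a ha
      rw [Finset.mem_coe, mem_filter, mem_Ioc] at ha
      rw [Finset.mem_coe, mem_range]
      have := Nat.div_le_div_right (c := v) ha.1.2
      show a / v < A / v + 1
      omega
    · intro a ha b hb hab
      rw [Finset.mem_coe, mem_filter, mem_Ioc] at ha hb
      have h2 : a * u ≡ b * u [MOD v] := ha.2.trans hb.2.symm
      have h3 : a ≡ b [MOD v] := Nat.ModEq.cancel_right_of_coprime (by rwa [Nat.gcd_comm] ) h2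
      have h4 : a / v = b / v := hab
      rw [← Nat.div_add_mod a v, ← Nat.div_add_mod b v, h4, h3]
  rw [card_range] at h1
  calc (((Ioc 0 A).filter (fun a => a * u ≡ q [MOD v])).card : ℝ) ≤ ((A / v + 1 : ℕ) : ℝ) := by exact_mod_cast h1
    _ ≤ A / v + 1 := by
        push_cast
        have := @Nat.cast_div_le ℝ _ _ _ A v
        linarith

lemma class_lower {u v A q : ℕ} (hv : 0 < v) (huv : Nat.Coprime u v) :
    A / v ≤ ((Ioc 0 A).filter (fun a => a * u ≡ q [MOD v])).card := by
  -- a solution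
  obtain ⟨r, hr0, hrv, hr⟩ : ∃ r, 0 < r ∧ r ≤ v ∧ r * u ≡ q [MOD v] := by
    rcases Nat.eq_or_lt_of_le (show 1 ≤ v from hv) with h1 | h1
    · refine ⟨1, one_pos, by omega, ?_⟩
      rw [← h1]
      exact Nat.modEq_one
    · obtain ⟨w, -, hw⟩ := Nat.exists_mul_mod_eq_one_of_coprime huv h1
      have hw' : u * w ≡ 1 [MOD v] := by
        unfold Nat.ModEq
        rw [hw, Nat.mod_eq_of_lt h1]
      have h2 : (q * w) * u ≡ q [MOD v] := by
        calc (q * w) * u = q * (u * w) := by ring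
          _ ≡ q * 1 [MOD v] := hw'.mul_left _
          _ = q := mul_one _
      by_cases h3 : (q * w) % v = 0
      · refine ⟨v, hv, le_rfl, ?_⟩
        have h4 : q ≡ 0 [MOD v] := by
          have h5 : q * w ≡ 0 [MOD v] := by
            unfold Nat.ModEq
            rw [h3, Nat.zero_mod]
          calc q ≡ (q * w) * u [MOD v] := h2.symm
            _ ≡ 0 * u [MOD v] := h5.mul_right _
            _ = 0 := zero_mul _
        refine Nat.ModEq.trans ?_ h4.symm
        exact (Nat.modEq_zero_iff_dvd).2 (Dvd.intro _ rfl)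
      · refine ⟨(q * w) % v, Nat.pos_of_ne_zero h3, (Nat.mod_lt _ hv).le, ?_⟩
        exact ((Nat.mod_modEq _ _).mul_right _).trans h2
  have h1 : (range (A / v)).card ≤ ((Ioc 0 A).filter (fun a => a * u ≡ q [MOD v])).card := by
    refine Finset.card_le_card_of_injOn (fun t => r + v * t) ?_ ?_
    · intro t ht
      rw [Finset.mem_coe, mem_range] at ht
      rw [Finset.mem_coe, mem_filter, mem_Ioc]
      have h2 : v * (t + 1) ≤ A := by
        calc v * (t + 1) ≤ v * (A / v) := Nat.mul_le_mul_left _ ht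
          _ ≤ A := Nat.mul_div_le _ _
      refine ⟨⟨?_, ?_⟩, ?_⟩
      · show 0 < r + v * t
        omega
      · show r + v * t ≤ A
        rw [mul_add, mul_one] at h2
        omega
      · show (r + v * t) * u ≡ q [MOD v]
        calc (r + v * t) * u = r * u + v * (t * u) := by ring
          _ ≡ r * u + 0 [MOD v] := ((Nat.modEq_zero_iff_dvd).2 (Dvd.intro _ rfl)).add_left _
          _ = r * u := add_zero _
          _ ≡ q [MOD v] := hr
    · intro s _ t _ hst
      have h2 : r + v * s = r + v * t := hst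
      exact Nat.eq_of_mul_eq_mul_left hv (by omega)
  rwa [card_range] at h1

end Pool.Agent.T9h55.PI
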