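import Pool.Agent.T9h55.PI.Sv
import Pool.Agent.T9h55.PI.Pr

/-! The number of the initial values in a box for which the `n`-th term is prime (helper55). -/

set_option autoImplicit false

namespace Pool.Agent.T9h55.PI

open Finset

/-- the initial values in a box with a prime `n`-th term -/
def Bx (A B n : ℕ) : Finset (ℕ × ℕ) := (Ioc 0 A ×ˢ Ioc 0 B).filter (fun x => (T x.1 x.2 n).Prime)

lemma cop {n : ℕ} (hn : 1 ≤ n) : Nat.Coprime (Nat.fib (n - 1)) (Nat.fib n) := by
  obtain ⟨k, rfl⟩ : ∃ k, n = k + 1 := ⟨n - 1, by omega⟩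
  exact Nat.fib_coprime_fib_succ k

lemma card_prod_filter (P Q : Finset ℕ) (r : ℕ → ℕ → Prop) [∀ x y, Decidable (r x y)] :
    ((P ×ˢ Q).filter (fun x => r x.1 x.2)).card = ∑ p ∈ P, (Q.filter (fun a => r p a)).card := by
  rw [Finset.card_filter, Finset.sum_product]
  exact Finset.sum_congr rfl fun p _ => by rw [Finset.card_filter]

theorem first_upper {A B n : ℕ} (hn : 1 ≤ n) (hA : Nat.fib n ≤ A) (hAB : A ≤ B) (hB : 2 ≤ B) :
    ((Bx A B n).card : ℝ) ≤ 32 * (A * B / Real.log B) := by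
  obtain ⟨u, hu⟩ : ∃ u, u = Nat.fib (n - 1) := ⟨_, rfl⟩
  obtain ⟨v, hv⟩ : ∃ v, v = Nat.fib n := ⟨_, rfl⟩
  have hv0 : 0 < v := by rw [hv]; exact Nat.fib_pos.2 hn
  have huv : u ≤ v := by rw [hu, hv]; exact Nat.fib_mono (Nat.sub_le _ _)
  have hc : Nat.Coprime u v := by rw [hu, hv]; exact cop hn
  rw [← hv] at hA
  obtain ⟨x, hx⟩ : ∃ x, x = 2 * B * v := ⟨_, rfl⟩
  have h1 : (Bx A B n).card ≤ ((((Ioc 0 x).filter Nat.Prime) ×ˢ Ioc 0 A).filter
      (fun y => y.2 * u ≡ y.1 [MOD v])).card := by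
    refine Finset.card_le_card_of_injOn (fun y => (T y.1 y.2 n, y.1)) ?_ ?_
    · rintro ⟨a, b⟩ hy
      rw [Finset.mem_coe] at hy
      unfold Bx at hy
      rw [mem_filter, mem_product, mem_Ioc, mem_Ioc] at hy
      rw [Finset.mem_coe, mem_filter, mem_product, mem_filter, mem_Ioc, mem_Ioc]
      obtain ⟨⟨⟨ha0, haA⟩, hb0, hbB⟩, hp⟩ := hy
      have e : T a b n = a * u + b * v := by rw [T_eq' a b hn, hu, hv]
      refine ⟨⟨⟨⟨hp.pos, ?_⟩, hp⟩, ha0, haA⟩, ?_⟩
      · show T a b n ≤ x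
        rw [e, hx]
        calc a * u + b * v ≤ B * v + B * v :=
              Nat.add_le_add (Nat.mul_le_mul (haA.trans hAB) huv) (Nat.mul_le_mul_right _ hbB)
          _ = 2 * B * v := by ring
      · show a * u ≡ T a b n [MOD v]
        rw [e]
        calc a * u = a * u + 0 := (add_zero _).symm
          _ ≡ a * u + b * v [MOD v] := ((Nat.modEq_zero_iff_dvd).2 (Dvd.intro_left _ rfl)).symm.add_left _
    · rintro ⟨a, b⟩ hy ⟨a', b'⟩ hy' hyy
      have h2 : T a b n = T a' b' n ∧ a = a' := by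
        simpa only [Prod.mk.injEq] using hyy
      obtain ⟨h2, rfl⟩ := h2
      rw [T_eq' _ _ hn, T_eq' _ _ hn, ← hu, ← hv] at h2
      have h3 : b * v = b' * v := by omega
      rw [Nat.eq_of_mul_eq_mul_right hv0 h3]
  have h2 : ((((Ioc 0 x).filter Nat.Prime) ×ˢ Ioc 0 A).filter (fun y => y.2 * u ≡ y.1 [MOD v])).card =
      ∑ q ∈ (Ioc 0 x).filter Nat.Prime, ((Ioc 0 A).filter (fun a => a * u ≡ q [MOD v])).card :=
    card_prod_filter _ _ (fun q a => a * u ≡ q [MOD v])
  rw [h2] at h1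
  have hv0R : (0 : ℝ) < v := by exact_mod_cast hv0
  have hvA : (v : ℝ) ≤ A := by exact_mod_cast hA
  have hBR : (2 : ℝ) ≤ B := by exact_mod_cast hB
  have hlB : 0 < Real.log B := Real.log_pos (by linarith)
  have hxB : B ≤ x := by
    rw [hx]
    nlinarith
  have hlx : Real.log B ≤ Real.log x := Real.log_le_log (by linarith) (by exact_mod_cast hxB)
  calc ((Bx A B n).card : ℝ) ≤
        ((∑ q ∈ (Ioc 0 x).filter Nat.Prime, ((Ioc 0 A).filter (fun a => a * u ≡ q [MOD v])).card : ℕ) : ℝ) := by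
        exact_mod_cast h1
    _ = ∑ q ∈ (Ioc 0 x).filter Nat.Prime, (((Ioc 0 A).filter (fun a => a * u ≡ q [MOD v])).card : ℝ) := by
        push_cast
        rfl
    _ ≤ ∑ q ∈ (Ioc 0 x).filter Nat.Prime, (2 * (A : ℝ) / v) := by
        refine Finset.sum_le_sum fun q _ => (class_upper hv0 hc).trans ?_
        have : (1 : ℝ) ≤ A / v := (one_le_div hv0R).2 hvA
        rw [two_mul, add_div]
        linarith
    _ = (((Ioc 0 x).filter Nat.Prime).card : ℝ) * (2 * (A : ℝ) / v) := by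
        rw [Finset.sum_const, nsmul_eq_mul]
    _ ≤ 8 * (x / Real.log x) * (2 * (A : ℝ) / v) :=
        mul_le_mul_of_nonneg_right (primes_upper (hB.trans hxB)) (by positivity)
    _ ≤ 8 * (x / Real.log B) * (2 * (A : ℝ) / v) := by
        refine mul_le_mul_of_nonneg_right ?_ (by positivity)
        refine mul_le_mul_of_nonneg_left ?_ (by norm_num)
        exact div_le_div_of_nonneg_left (Nat.cast_nonneg _) hlB hlx
    _ = 32 * (A * B / Real.log B) := by
        rw [hx]
        push_cast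
        field_simp
        ring

theorem first_lower {A B n : ℕ} (hn : 1 ≤ n) (hA : 8 * Nat.fib n ≤ A) (hAB : A ≤ B) (hB : 10 ^ 8 ≤ B) :
    1 / 128 * (A * B / Real.log B) ≤ ((Bx A B n).card : ℝ) := by
  obtain ⟨u, hu⟩ : ∃ u, u = Nat.fib (n - 1) := ⟨_, rfl⟩
  obtain ⟨v, hv⟩ : ∃ v, v = Nat.fib n := ⟨_, rfl⟩
  have hv0 : 0 < v := by rw [hv]; exact Nat.fib_pos.2 hn
  have huv : u ≤ v := by rw [hu, hv]; exact Nat.fib_mono (Nat.sub_le _ _)
  have hc : Nat.Coprime u v := by rw [hu, hv]; exact cop hn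
  rw [← hv] at hA
  obtain ⟨x, hx⟩ : ∃ x, x = B * v := ⟨_, rfl⟩
  have h1 : ((((Ioc (x / 4) x).filter Nat.Prime) ×ˢ Ioc 0 (A / 4)).filter
      (fun y => y.2 * u ≡ y.1 [MOD v])).card ≤ (Bx A B n).card := by
    have hau : ∀ a, a ≤ A / 4 → ∀ q, x / 4 < q → a * u < q := by
      intro a ha q hq
      refine lt_of_le_of_lt ?_ hq
      calc a * u ≤ (B / 4) * v := Nat.mul_le_mul (ha.trans (Nat.div_le_div_right hAB)) huv
        _ ≤ B * v / 4 := by
            rw [mul_comm, mul_comm B v]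
            exact Nat.mul_div_le_mul_div_assoc _ _ _
        _ = x / 4 := by rw [hx]
    refine Finset.card_le_card_of_injOn (fun y => (y.2, (y.1 - y.2 * u) / v)) ?_ ?_
    · rintro ⟨q, a⟩ hy
      rw [Finset.mem_coe, mem_filter, mem_product, mem_filter, mem_Ioc, mem_Ioc] at hy
      obtain ⟨⟨⟨⟨hq1, hq2⟩, hqp⟩, ha0, haA⟩, hcong⟩ := hy
      have h2 := hau a haA q hq1
      have h3 : v ∣ q - a * u := (Nat.modEq_iff_dvd' h2.le).1 hcong
      obtain ⟨b, hb⟩ := h3
      have hqb : q = a * u + b * v := by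
        have : q = a * u + (q - a * u) := by
          have h2' : a * u < q := h2
          omega
        rw [hb] at this
        rw [this]
        ring
      have hbv : (q - a * u) / v = b := by
        rw [hb]
        exact Nat.mul_div_cancel_left _ hv0
      rw [Finset.mem_coe]
      show (a, (q - a * u) / v) ∈ Bx A B n
      rw [hbv]
      unfold Bx
      rw [mem_filter, mem_product, mem_Ioc, mem_Ioc]
      refine ⟨⟨⟨ha0, haA.trans (Nat.div_le_self _ _)⟩, ?_, ?_⟩, ?_⟩
      · show 0 < b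
        rcases Nat.eq_zero_or_pos b with h0 | h0
        · rw [h0, mul_zero] at hb
          have h2' : a * u < q := h2
          omega
        · exact h0
      · show b ≤ B
        have h4 : b * v ≤ B * v := by
          have hq2' : q ≤ B * v := by
            have : q ≤ x := hq2
            rwa [hx] at this
          omega
        exact Nat.le_of_mul_le_mul_right h4 hv0
      · show (T a b n).Prime
        rw [T_eq' a b hn, ← hu, ← hv, ← hqb]
        exact hqp
    · rintro ⟨q, a⟩ hy ⟨q', a'⟩ hy' hyy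
      rw [Finset.mem_coe, mem_filter, mem_product, mem_filter, mem_Ioc, mem_Ioc] at hy hy'
      obtain ⟨⟨⟨⟨hq1, hq2⟩, hqp⟩, ha0, haA⟩, hcong⟩ := hy
      obtain ⟨⟨⟨⟨hq1', hq2'⟩, hqp'⟩, ha0', haA'⟩, hcong'⟩ := hy'
      have h2 : a = a' ∧ (q - a * u) / v = (q' - a' * u) / v := by
        simpa only [Prod.mk.injEq] using hyy
      obtain ⟨rfl, h3⟩ := h2
      have g1 := hau a haA q hq1
      have g2 := hau a haA q' hq1'
      have d1 : v ∣ q - a * u := (Nat.modEq_iff_dvd' g1.le).1 hcong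
      have d2 : v ∣ q' - a * u := (Nat.modEq_iff_dvd' g2.le).1 hcong'
      have h4 : q - a * u = q' - a * u := by
        rw [← Nat.div_mul_cancel d1, ← Nat.div_mul_cancel d2, h3]
      have h5 : q = q' := by omega
      rw [h5]
  have h2 : ((((Ioc (x / 4) x).filter Nat.Prime) ×ˢ Ioc 0 (A / 4)).filter (fun y => y.2 * u ≡ y.1 [MOD v])).card =
      ∑ q ∈ (Ioc (x / 4) x).filter Nat.Prime, ((Ioc 0 (A / 4)).filter (fun a => a * u ≡ q [MOD v])).card :=
    card_prod_filter _ _ (fun q a => a * u ≡ q [MOD v])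
  rw [h2] at h1
  have hv0R : (0 : ℝ) < v := by exact_mod_cast hv0
  have hvA : 8 * (v : ℝ) ≤ A := by exact_mod_cast hA
  have hvAn : v ≤ A := by omega
  have hBR : (10 : ℝ) ^ 8 ≤ B := by exact_mod_cast hB
  have hlB : 0 < Real.log B := Real.log_pos (by linarith)
  have hxB : B ≤ x := by
    rw [hx]
    nlinarith
  have hx0 : (0 : ℝ) < x := by
    have : (B : ℝ) ≤ x := by exact_mod_cast hxB
    linarith
  have hlx0 : 0 < Real.log x := Real.log_pos (by
    have : (B : ℝ) ≤ x := by exact_mod_cast hxB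
    linarith)
  have hlx : Real.log x ≤ 2 * Real.log B := by
    have h3 : (x : ℝ) ≤ (B : ℝ) ^ 2 := by
      have : x ≤ B ^ 2 := by
        rw [hx, pow_two]
        exact Nat.mul_le_mul_left _ (hvAn.trans hAB)
      exact_mod_cast this
    have h4 := Real.log_le_log hx0 h3
    rw [Real.log_pow] at h4
    exact_mod_cast h4
  have hfl : (A : ℝ) / (8 * v) ≤ ((A / 4 / v : ℕ) : ℝ) := by
    rw [Nat.div_div_eq_div_mul]
    have h3 : (A : ℝ) / (4 * v) < ((A / (4 * v) : ℕ) : ℝ) + 1 := by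
      have h4 := Nat.lt_div_mul_add (a := A) (b := 4 * v) (by omega)
      rw [div_lt_iff₀ (by positivity)]
      have h5 : (A : ℝ) < ((A / (4 * v) : ℕ) : ℝ) * (4 * v) + 4 * v := by exact_mod_cast h4
      linarith
    have h4 : (1 : ℝ) ≤ A / (8 * v) := (one_le_div (by positivity)).2 (by linarith)
    have h5 : (A : ℝ) / (4 * v) = A / (8 * v) + A / (8 * v) := by
      field_simp
      ring
    linarith
  calc 1 / 128 * (A * B / Real.log B) ≤ 1 / 8 * (x / Real.log x) * (A / (8 * v)) := by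
        have h3 : x / (2 * Real.log B) ≤ x / Real.log x :=
          div_le_div_of_nonneg_left hx0.le hlx0 hlx
        calc 1 / 128 * (A * B / Real.log B) = 1 / 8 * (x / (2 * Real.log B)) * (A / (8 * v)) := by
              rw [hx]
              push_cast
              field_simp
              ring
          _ ≤ _ := mul_le_mul_of_nonneg_right (mul_le_mul_of_nonneg_left h3 (by norm_num)) (by positivity)
    _ ≤ (((Ioc (x / 4) x).filter Nat.Prime).card : ℝ) * ((A / 4 / v : ℕ) : ℝ) :=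
        mul_le_mul (primes_lower (hB.trans hxB)) hfl (by positivity) (Nat.cast_nonneg _)
    _ = ∑ q ∈ (Ioc (x / 4) x).filter Nat.Prime, ((A / 4 / v : ℕ) : ℝ) := by
        rw [Finset.sum_const, nsmul_eq_mul]
    _ ≤ ∑ q ∈ (Ioc (x / 4) x).filter Nat.Prime,
          (((Ioc 0 (A / 4)).filter (fun a => a * u ≡ q [MOD v])).card : ℝ) :=
        Finset.sum_le_sum fun q _ => by exact_mod_cast class_lower hv0 hc
    _ = ((∑ q ∈ (Ioc (x / 4) x).filter Nat.Prime,
          ((Ioc 0 (A / 4)).filter (fun a => a * u ≡ q [MOD v])).card : ℕ) : ℝ) := by push_cast; rfl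
    _ ≤ ((Bx A B n).card : ℝ) := by exact_mod_cast h1

end Pool.Agent.T9h55.PI
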