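import Pool.Agent.T9h55.PI.Fm

/-! The second moment and the main theorem (helper55). -/

set_option autoImplicit false

namespace Pool.Agent.T9h55.PI

open Finset

/-- Cauchy's inequality for the sums over the pairs of indices -/
lemma quad (S : Finset ℕ) (D : ℕ) (hS : ∀ n ∈ S, 1 ≤ n ∧ n ≤ D) (e : ℕ → ℝ) (he : ∀ n, 1 ≤ e n) (C : ℝ) (hC : 0 ≤ C)
    (h4 : ∑ d ∈ Ioc 0 D, (e d) ^ 4 ≤ C * D) :
    ∑ n ∈ S, ∑ m ∈ S.filter (fun m => m < n), e n * e m * e (n - m) ≤ C * (S.card * D) := by
  have he0 : ∀ n, 0 ≤ e n := fun n => by linarith [he n]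
  set W : ℕ → ℝ := fun n => ∑ m ∈ S.filter (fun m => m < n), e m * e (n - m) with hW
  have hW0 : ∀ n, 0 ≤ W n := fun n => Finset.sum_nonneg fun m _ => mul_nonneg (he0 _) (he0 _)
  have hCSD : 0 ≤ C * (S.card * D) := by positivity
  have hWn : ∀ n ∈ S, W n ≤ Real.sqrt (C * (S.card * D)) := by
    intro n hn
    refine Real.le_sqrt_of_sq_le ?_
    have h1 : (W n) ^ 2 ≤ ((S.filter (fun m => m < n)).card : ℝ) *
        ∑ m ∈ S.filter (fun m => m < n), (e m * e (n - m)) ^ 2 := sq_sum_le_card_mul_sum_sq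
    have h2 : ∑ m ∈ S.filter (fun m => m < n), (e m * e (n - m)) ^ 2 ≤ C * D := by
      have h3 : ∀ m ∈ S.filter (fun m => m < n), (e m * e (n - m)) ^ 2 ≤
          1 / 2 * (e m) ^ 4 + 1 / 2 * (e (n - m)) ^ 4 := by
        intro m _
        nlinarith [sq_nonneg ((e m) ^ 2 - (e (n - m)) ^ 2)]
      refine (Finset.sum_le_sum h3).trans ?_
      rw [Finset.sum_add_distrib, ← Finset.mul_sum, ← Finset.mul_sum]
      have h5 : ∑ m ∈ S.filter (fun m => m < n), (e m) ^ 4 ≤ ∑ d ∈ Ioc 0 D, (e d) ^ 4 := by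
        refine Finset.sum_le_sum_of_subset_of_nonneg ?_ (fun d _ _ => pow_nonneg (he0 d) 4)
        intro m hm
        rw [mem_filter] at hm
        rw [mem_Ioc]
        have := hS m hm.1
        omega
      have h6 : ∑ m ∈ S.filter (fun m => m < n), (e (n - m)) ^ 4 ≤ ∑ d ∈ Ioc 0 D, (e d) ^ 4 := by
        have hinj : Set.InjOn (fun m => n - m) (S.filter (fun m => m < n) : Set ℕ) := by
          intro a ha b hb hab
          rw [Finset.mem_coe, mem_filter] at ha hb
          have : n - a = n - b := hab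
          omega
        rw [← Finset.sum_image (f := fun d => (e d) ^ 4) hinj]
        refine Finset.sum_le_sum_of_subset_of_nonneg ?_ (fun d _ _ => pow_nonneg (he0 d) 4)
        intro d hd
        rw [mem_image] at hd
        obtain ⟨m, hm, rfl⟩ := hd
        rw [mem_filter] at hm
        rw [mem_Ioc]
        have := hS n hn
        omega
      linarith
    have h3 : ((S.filter (fun m => m < n)).card : ℝ) ≤ S.card := by exact_mod_cast Finset.card_filter_le _ _
    calc (W n) ^ 2 ≤ ((S.filter (fun m => m < n)).card : ℝ) *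
        ∑ m ∈ S.filter (fun m => m < n), (e m * e (n - m)) ^ 2 := h1
      _ ≤ S.card * (C * D) := mul_le_mul h3 h2 (Finset.sum_nonneg fun _ _ => sq_nonneg _) (Nat.cast_nonneg _)
      _ = _ := by ring
  have hEs : ∑ n ∈ S, e n ≤ Real.sqrt (C * (S.card * D)) := by
    refine Real.le_sqrt_of_sq_le ?_
    have h1 : (∑ n ∈ S, e n) ^ 2 ≤ (S.card : ℝ) * ∑ n ∈ S, (e n) ^ 2 := sq_sum_le_card_mul_sum_sq
    have h2 : ∑ n ∈ S, (e n) ^ 2 ≤ C * D := by
      refine le_trans ?_ h4
      refine (Finset.sum_le_sum fun n _ => pow_le_pow_right₀ (he n) (show 2 ≤ 4 by norm_num)).trans ?_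
      refine Finset.sum_le_sum_of_subset_of_nonneg ?_ (fun d _ _ => pow_nonneg (he0 d) 4)
      intro m hm
      rw [mem_Ioc]
      have := hS m hm
      omega
    calc (∑ n ∈ S, e n) ^ 2 ≤ (S.card : ℝ) * ∑ n ∈ S, (e n) ^ 2 := h1
      _ ≤ S.card * (C * D) := mul_le_mul_of_nonneg_left h2 (Nat.cast_nonneg _)
      _ = _ := by ring
  calc ∑ n ∈ S, ∑ m ∈ S.filter (fun m => m < n), e n * e m * e (n - m)
      = ∑ n ∈ S, e n * W n := by
        refine Finset.sum_congr rfl fun n _ => ?_
        rw [hW, Finset.mul_sum]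
        exact Finset.sum_congr rfl fun m _ => by ring
    _ ≤ ∑ n ∈ S, e n * Real.sqrt (C * (S.card * D)) :=
        Finset.sum_le_sum fun n hn => mul_le_mul_of_nonneg_left (hWn n hn) (he0 n)
    _ = (∑ n ∈ S, e n) * Real.sqrt (C * (S.card * D)) := by rw [Finset.sum_mul]
    _ ≤ Real.sqrt (C * (S.card * D)) * Real.sqrt (C * (S.card * D)) :=
        mul_le_mul_of_nonneg_right hEs (Real.sqrt_nonneg _)
    _ = _ := Real.mul_self_sqrt hCSD

/-- two prime terms -/
theorem two : ∃ C : ℝ, 1 ≤ C ∧ ∃ B₀ : ℕ, ∀ A B : ℕ, B₀ ≤ B → ∀ m n : ℕ, 1 ≤ m → m < n →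
    (((Bx A B n) ∩ (Bx A B m)).card : ℝ) ≤ C * (A * B / (Real.log B) ^ 2) *
      (Real.exp (hf B (Nat.fib n)) * Real.exp (hf B (Nat.fib m)) * Real.exp (hf B (Nat.fib (n - m)))) := by
  obtain ⟨C1, hC1, B1, h1⟩ := pair_bound
  obtain ⟨C2, hC2, h2⟩ := int_moment 1
  refine ⟨C1 * C2, one_le_mul_of_one_le_of_one_le hC1 hC2, B1, fun A B hB m n hm hmn => ?_⟩
  have e1 : ((Bx A B n) ∩ (Bx A B m)).card = ∑ a ∈ Ioc 0 A,
      ((Ioc 0 B).filter (fun b => (T a b m).Prime ∧ (T a b n).Prime)).card := by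
    rw [← card_prod_filter (Ioc 0 A) (Ioc 0 B) (fun a b => (T a b m).Prime ∧ (T a b n).Prime)]
    congr 1
    ext x
    unfold Bx
    simp only [mem_inter, mem_filter]
    tauto
  rw [e1]
  push_cast
  calc ∑ a ∈ Ioc 0 A, (((Ioc 0 B).filter (fun b => (T a b m).Prime ∧ (T a b n).Prime)).card : ℝ)
      ≤ ∑ a ∈ Ioc 0 A, C1 * (B / (Real.log B) ^ 2) *
          Real.exp (hf B (Nat.fib n) + hf B (Nat.fib m) + hf B a + hf B (Nat.fib (n - m))) :=
        Finset.sum_le_sum fun a _ => h1 B hB a m n hm hmn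
    _ = C1 * (B / (Real.log B) ^ 2) * (Real.exp (hf B (Nat.fib n)) * Real.exp (hf B (Nat.fib m)) *
          Real.exp (hf B (Nat.fib (n - m)))) * ∑ a ∈ Ioc 0 A, Real.exp (hf B a) := by
        rw [Finset.mul_sum]
        refine Finset.sum_congr rfl fun a _ => ?_
        rw [Real.exp_add, Real.exp_add, Real.exp_add]
        ring
    _ ≤ C1 * (B / (Real.log B) ^ 2) * (Real.exp (hf B (Nat.fib n)) * Real.exp (hf B (Nat.fib m)) *
          Real.exp (hf B (Nat.fib (n - m)))) * (C2 * A) := by
        refine mul_le_mul_of_nonneg_left ?_ (by positivity)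
        have h3 := h2 B A
        simp only [Nat.cast_one, one_mul] at h3
        exact h3
    _ = _ := by ring

open Classical in
/-- **the order of the number of the initial values with a prime term in a given set of indices** -/
theorem main : ∃ c C : ℝ, 0 < c ∧ 0 < C ∧ ∃ B₀ : ℕ, ∀ A B : ℕ, B₀ ≤ B → A ≤ B → ∀ S : Finset ℕ,
    (∀ n ∈ S, 1 ≤ n ∧ 8 * Nat.fib n ≤ A) →
    c * (S.card * (A * B) / Real.log B) ≤
      (((Ioc 0 A ×ˢ Ioc 0 B).filter (fun x => ∃ n ∈ S, (T x.1 x.2 n).Prime)).card : ℝ) ∧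
    (((Ioc 0 A ×ˢ Ioc 0 B).filter (fun x => ∃ n ∈ S, (T x.1 x.2 n).Prime)).card : ℝ) ≤
      C * (S.card * (A * B) / Real.log B) := by
  obtain ⟨C1, hC1, B1, htwo⟩ := two
  obtain ⟨C2, hC2, hfm⟩ := fib_moment 4
  set K : ℝ := 32 + 10 * (C1 * C2) with hK
  have hK0 : 0 < K := by rw [hK]; positivity
  refine ⟨(1 / 128) ^ 2 / K, 32, by positivity, by norm_num, max B1 (10 ^ 8), fun A B hB hAB S hS => ?_⟩
  have hB1 : B1 ≤ B := (le_max_left _ _).trans hB
  have hB2 : 10 ^ 8 ≤ B := (le_max_right _ _).trans hB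
  have hBR : (10 : ℝ) ^ 8 ≤ B := by exact_mod_cast hB2
  have hlB : 1 ≤ Real.log B := by
    rw [Real.le_log_iff_exp_le (by linarith)]
    have := Real.exp_one_lt_d9
    linarith
  set U := (Ioc 0 A ×ˢ Ioc 0 B).filter (fun x => ∃ n ∈ S, (T x.1 x.2 n).Prime) with hU
  have hUb : U = S.biUnion (fun n => Bx A B n) := by
    ext x
    rw [hU, mem_filter, mem_biUnion]
    unfold Bx
    constructor
    · rintro ⟨h1, n, hn, h2⟩
      exact ⟨n, hn, mem_filter.2 ⟨h1, h2⟩⟩
    · rintro ⟨n, hn, h2⟩
      rw [mem_filter] at h2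
      exact ⟨h2.1, n, hn, h2.2⟩
  have hup : ∀ n ∈ S, ((Bx A B n).card : ℝ) ≤ 32 * (A * B / Real.log B) := by
    intro n hn
    have := hS n hn
    exact first_upper this.1 (by omega) hAB (by omega)
  have hlow : ∀ n ∈ S, 1 / 128 * (A * B / Real.log B) ≤ ((Bx A B n).card : ℝ) := by
    intro n hn
    have := hS n hn
    exact first_lower this.1 this.2 hAB hB2
  constructor
  swap
  · -- the upper bound
    calc (U.card : ℝ) ≤ ((∑ n ∈ S, (Bx A B n).card : ℕ) : ℝ) := by
          rw [hUb]
          exact_mod_cast Finset.card_biUnion_le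
      _ = ∑ n ∈ S, ((Bx A B n).card : ℝ) := by push_cast; rfl
      _ ≤ ∑ n ∈ S, 32 * (A * B / Real.log B) := Finset.sum_le_sum hup
      _ = _ := by
          rw [Finset.sum_const, nsmul_eq_mul]
          ring
  · -- the lower bound
    rcases S.eq_empty_or_nonempty with h0 | hne
    · subst h0
      simp
    -- the largest index
    obtain ⟨D, hD, hDmax⟩ : ∃ D ∈ S, ∀ n ∈ S, n ≤ D := by
      obtain ⟨D, hD, h⟩ := Finset.exists_max_image S id hne
      exact ⟨D, hD, h⟩
    have hDlog : (D : ℝ) ≤ 5 * Real.log B := by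
      rcases Nat.lt_or_ge D 2 with h2 | h2
      · have : (D : ℝ) ≤ 2 := by exact_mod_cast h2.le
        linarith
      · obtain ⟨k, rfl⟩ : ∃ k, D = k + 2 := ⟨D - 2, by omega⟩
        have h3 := two_pow_le_fib_sq k
        have h4 : Nat.fib (k + 2) ≤ B := by
          have := (hS _ hD).2
          omega
        have h5 : 2 ^ k ≤ B ^ 2 := h3.trans (Nat.pow_le_pow_left h4 2)
        have h6 : (2 : ℝ) ^ k ≤ (B : ℝ) ^ 2 := by exact_mod_cast h5
        have h7 := Real.log_le_log (by positivity) h6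
        rw [Real.log_pow, Real.log_pow] at h7
        have hl2 := Real.log_two_gt_d9
        push_cast at h7 ⊢
        have h8 : (k : ℝ) * 0.6931 ≤ 2 * Real.log B := by
          have : (k : ℝ) * 0.6931 ≤ k * Real.log 2 :=
            mul_le_mul_of_nonneg_left (by linarith) (Nat.cast_nonneg _)
          linarith
        have h9 : (10 : ℝ) ≤ 8 * Real.log B := by
          have : Real.log ((10 : ℝ) ^ 8) ≤ Real.log B := Real.log_le_log (by positivity) hBR
          rw [Real.log_pow] at this
          have h10 : 1 ≤ Real.log 10 := by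
            rw [Real.le_log_iff_exp_le (by norm_num)]
            have := Real.exp_one_lt_d9
            linarith
          push_cast at this
          linarith
        have h10 : (8 : ℝ) ≤ Real.log B := by
          have : Real.log ((10 : ℝ) ^ 8) ≤ Real.log B := Real.log_le_log (by positivity) hBR
          rw [Real.log_pow] at this
          have h10 : 1 ≤ Real.log 10 := by
            rw [Real.le_log_iff_exp_le (by norm_num)]
            have := Real.exp_one_lt_d9
            linarith
          push_cast at this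
          linarith
        nlinarith
    -- the moments
    set N : ℕ × ℕ → ℝ := fun x => ∑ n ∈ S, if x ∈ Bx A B n then (1 : ℝ) else 0 with hN
    have hm1 : ∑ x ∈ U, N x = ∑ n ∈ S, ((Bx A B n).card : ℝ) := by
      rw [hN, Finset.sum_comm]
      refine Finset.sum_congr rfl fun n hn => ?_
      rw [← Finset.sum_filter, Finset.sum_const, nsmul_eq_mul, mul_one]
      congr 2
      ext x
      rw [mem_filter, hUb, mem_biUnion]
      exact ⟨fun h => h.2, fun h => ⟨⟨n, hn, h⟩, h⟩⟩
    have hm2 : ∑ x ∈ U, (N x) ^ 2 = ∑ n ∈ S, ∑ m ∈ S, (((Bx A B n) ∩ (Bx A B m)).card : ℝ) := by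
      have e1 : ∀ x, (N x) ^ 2 = ∑ n ∈ S, ∑ m ∈ S, if x ∈ (Bx A B n) ∩ (Bx A B m) then (1 : ℝ) else 0 := by
        intro x
        rw [hN, pow_two, Finset.sum_mul_sum]
        refine Finset.sum_congr rfl fun n _ => Finset.sum_congr rfl fun m _ => ?_
        by_cases h1 : x ∈ Bx A B n <;> by_cases h2 : x ∈ Bx A B m <;> simp [h1, h2, Finset.mem_inter]
      rw [Finset.sum_congr rfl fun x _ => e1 x, Finset.sum_comm]
      refine Finset.sum_congr rfl fun n hn => ?_
      rw [Finset.sum_comm]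
      refine Finset.sum_congr rfl fun m hm => ?_
      rw [← Finset.sum_filter, Finset.sum_const, nsmul_eq_mul, mul_one]
      congr 2
      ext x
      rw [mem_filter, hUb, mem_biUnion]
      exact ⟨fun h => h.2, fun h => ⟨⟨n, hn, (mem_inter.1 h).1⟩, h⟩⟩
    -- the second moment
    set e : ℕ → ℝ := fun d => Real.exp (hf B (Nat.fib d)) with he
    set G : ℝ := C1 * (A * B / (Real.log B) ^ 2) with hG
    have hG0 : 0 ≤ G := by
      rw [hG]
      have : 0 ≤ C1 := by linarith
      positivity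
    have hquad := quad S D (fun n hn => ⟨(hS n hn).1, hDmax n hn⟩) e (fun n => Real.one_le_exp (hf_nonneg _ _)) C2
      (by linarith) (by
        refine le_trans (le_of_eq ?_) (hfm B D)
        refine Finset.sum_congr rfl fun d _ => ?_
        rw [he, ← Real.exp_nat_mul])
    have hsec : ∑ n ∈ S, ∑ m ∈ S, (((Bx A B n) ∩ (Bx A B m)).card : ℝ) ≤
        K * (S.card * (A * B) / Real.log B) := by
      have h1 : ∀ n ∈ S, ∀ m ∈ S, (((Bx A B n) ∩ (Bx A B m)).card : ℝ) ≤
          (if m = n then 32 * (A * B / Real.log B) else 0) + (if m < n then G * (e n * e m * e (n - m)) else 0) +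
            (if n < m then G * (e m * e n * e (m - n)) else 0) := by
        intro n hn m hm
        rcases lt_trichotomy m n with h | h | h
        · rw [if_neg h.ne, if_pos h, if_neg (by omega), zero_add, add_zero]
          exact htwo A B hB1 m n (hS m hm).1 h
        · subst h
          rw [if_pos rfl, if_neg (lt_irrefl _), add_zero, Finset.inter_self]
          rw [add_zero]
          exact hup m hm
        · rw [if_neg h.ne', if_neg (by omega), if_pos h, zero_add, zero_add, Finset.inter_comm]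
          exact htwo A B hB1 n m (hS n hn).1 h
      refine (Finset.sum_le_sum fun n hn => Finset.sum_le_sum fun m hm => h1 n hn m hm).trans ?_
      have h2 : ∑ n ∈ S, ∑ m ∈ S, ((if m = n then 32 * (A * B / Real.log B) else 0) +
          (if m < n then G * (e n * e m * e (n - m)) else 0) +
            (if n < m then G * (e m * e n * e (m - n)) else 0)) =
          ∑ n ∈ S, ∑ m ∈ S, (if m = n then 32 * (A * B / Real.log B) else 0) +
          ∑ n ∈ S, ∑ m ∈ S, (if m < n then G * (e n * e m * e (n - m)) else 0) +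
          ∑ n ∈ S, ∑ m ∈ S, (if n < m then G * (e m * e n * e (m - n)) else 0) := by
        rw [← Finset.sum_add_distrib, ← Finset.sum_add_distrib]
        refine Finset.sum_congr rfl fun n _ => ?_
        rw [← Finset.sum_add_distrib, ← Finset.sum_add_distrib]
      have h3 : ∑ n ∈ S, ∑ m ∈ S, (if n < m then G * (e m * e n * e (m - n)) else 0) =
          ∑ n ∈ S, ∑ m ∈ S, (if m < n then G * (e n * e m * e (n - m)) else 0) := by
        rw [Finset.sum_comm]
      have h4 : ∑ n ∈ S, ∑ m ∈ S, (if m < n then G * (e n * e m * e (n - m)) else 0) ≤ G * (C2 * (S.card * D)) := by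
        refine le_trans (le_of_eq ?_) (mul_le_mul_of_nonneg_left hquad hG0)
        rw [Finset.mul_sum]
        refine Finset.sum_congr rfl fun n _ => ?_
        rw [Finset.mul_sum, Finset.sum_filter]
      have h5 : ∑ n ∈ S, ∑ m ∈ S, (if m = n then 32 * (A * B / Real.log B) else 0) =
          S.card * (32 * (A * B / Real.log B)) := by
        have h9 : (S.card : ℝ) * (32 * (A * B / Real.log B)) = ∑ n ∈ S, 32 * (A * B / Real.log B) := by
          rw [Finset.sum_const, nsmul_eq_mul]
        rw [h9]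
        refine Finset.sum_congr rfl fun n hn => ?_
        rw [Finset.sum_ite_eq' S n, if_pos hn]
      rw [h2, h3, h5]
      have h6 : G * (C2 * (S.card * D)) ≤ 5 * (C1 * C2) * (S.card * (A * B) / Real.log B) := by
        calc G * (C2 * (S.card * D)) ≤ G * (C2 * (S.card * (5 * Real.log B))) := by
              refine mul_le_mul_of_nonneg_left ?_ hG0
              refine mul_le_mul_of_nonneg_left ?_ (by linarith)
              exact mul_le_mul_of_nonneg_left hDlog (Nat.cast_nonneg _)
          _ = _ := by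
              rw [hG]
              field_simp
      have h7 : (S.card : ℝ) * (32 * (A * B / Real.log B)) = 32 * (S.card * (A * B) / Real.log B) := by ring
      rw [h7, hK]
      have h8 : (32 + 10 * (C1 * C2)) * (S.card * (A * B) / Real.log B) =
          32 * (S.card * (A * B) / Real.log B) + 5 * (C1 * C2) * (S.card * (A * B) / Real.log B) +
            5 * (C1 * C2) * (S.card * (A * B) / Real.log B) := by ring
      rw [h8]
      linarith
    -- Cauchy's inequality
    have hCS : (∑ x ∈ U, N x) ^ 2 ≤ (U.card : ℝ) * ∑ x ∈ U, (N x) ^ 2 := sq_sum_le_card_mul_sum_sq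
    rw [hm1, hm2] at hCS
    have hF : 1 / 128 * (S.card * (A * B) / Real.log B) ≤ ∑ n ∈ S, ((Bx A B n).card : ℝ) := by
      calc 1 / 128 * (S.card * (A * B) / Real.log B) = ∑ n ∈ S, 1 / 128 * (A * B / Real.log B) := by
            rw [Finset.sum_const, nsmul_eq_mul]
            ring
        _ ≤ _ := Finset.sum_le_sum hlow
    obtain ⟨Q, hQ⟩ : ∃ Q : ℝ, Q = S.card * (A * B) / Real.log B := ⟨_, rfl⟩
    rw [← hQ] at hF hsec ⊢
    have hA0 : 0 < A := by
      have h1 := hS D hD
      have h2 : 1 ≤ Nat.fib D := Nat.fib_pos.2 h1.1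
      omega
    have hQ0 : 0 < Q := by
      rw [hQ]
      have h1 : (0 : ℝ) < A := by exact_mod_cast hA0
      have h2 : (0 : ℝ) < S.card := by exact_mod_cast Finset.card_pos.2 hne
      have h3 : (0 : ℝ) < B := by linarith
      positivity
    have h1 : (1 / 128 * Q) ^ 2 ≤ (U.card : ℝ) * (K * Q) :=
      (pow_le_pow_left₀ (by positivity) hF 2).trans
        (hCS.trans (mul_le_mul_of_nonneg_left hsec (Nat.cast_nonneg _)))
    rw [div_mul_eq_mul_div, div_le_iff₀ hK0]
    have h2 : ((1 / 128 : ℝ) ^ 2 * Q) * Q ≤ ((U.card : ℝ) * K) * Q := by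
      calc ((1 / 128 : ℝ) ^ 2 * Q) * Q = (1 / 128 * Q) ^ 2 := by ring
        _ ≤ (U.card : ℝ) * (K * Q) := h1
        _ = _ := by ring
    exact le_of_mul_le_mul_right h2 hQ0

end Pool.Agent.T9h55.PI
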