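import Mathlib

/-! Exponential moments of sums over primes whose ranks divide `d` (helper55). -/

set_option autoImplicit false

namespace Pool.Agent.T9h55.PI

open Finset

noncomputable def hh (P : Finset ℕ) (z : ℕ → ℕ) (j d : ℕ) : ℝ :=
  ∑ l ∈ P.filter (fun l => z l ∣ d ∧ z l < 2 ^ j), (1 : ℝ) / l

lemma exp_step (x y : ℝ) : Real.exp y ≤ Real.exp x + (y - x) * Real.exp y := by
  have h := Real.add_one_le_exp (x - y)
  have h2 : Real.exp x = Real.exp (x - y) * Real.exp y := by
    rw [← Real.exp_add]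
    congr 1
    ring
  rw [h2]
  have h3 := Real.exp_pos y
  nlinarith [mul_le_mul_of_nonneg_right h h3.le]

noncomputable def bb (κ : ℕ) (C₀ : ℝ) (i : ℕ) : ℝ :=
  κ * (1 + C₀) * Real.exp (κ * C₀) * (((i + 2 : ℕ) : ℝ) ^ (κ + 1) * (1 / 2) ^ i)

lemma bb_nonneg (κ : ℕ) {C₀ : ℝ} (hC₀ : 0 ≤ C₀) (i : ℕ) : 0 ≤ bb κ C₀ i := by
  unfold bb
  positivity

lemma bb_summable (κ : ℕ) (C₀ : ℝ) : Summable (bb κ C₀) := by
  unfold bb
  refine Summable.mul_left _ ?_
  have h := summable_pow_mul_geometric_of_norm_lt_one (R := ℝ) (κ + 1) (r := 1 / 2) (by norm_num)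
  have h2 := (summable_nat_add_iff 2).2 h
  refine (h2.mul_left 4).congr fun i => ?_
  rw [pow_add (1 / 2 : ℝ) i 2]
  ring

/-- exponential moments of sums over the primes whose rank divides `d` -/
theorem expo (κ : ℕ) (C₀ : ℝ) (hC₀ : 0 ≤ C₀) : ∃ C : ℝ, 1 ≤ C ∧ ∀ (P : Finset ℕ) (z : ℕ → ℕ), (∀ l ∈ P, 1 ≤ z l) →
    (∀ j : ℕ, ∑ l ∈ P.filter (fun l => z l < 2 ^ j), (1 : ℝ) / l ≤ Real.log (j + 1) + C₀) →
    ∀ D : ℕ, ∑ d ∈ Ioc 0 D, Real.exp (κ * ∑ l ∈ P.filter (fun l => z l ∣ d), (1 : ℝ) / l) ≤ C * D := by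
  have hT0 : 0 ≤ ∑' i, bb κ C₀ i := tsum_nonneg fun i => bb_nonneg κ hC₀ i
  refine ⟨1 + ∑' i, bb κ C₀ i, by linarith, fun P z hz hP D => ?_⟩
  have key : ∀ j : ℕ, ∑ d ∈ Ioc 0 D, Real.exp (κ * hh P z j d) ≤ (1 + ∑ i ∈ range j, bb κ C₀ i) * D := by
    intro j
    induction j with
    | zero =>
      have : ∀ d ∈ Ioc 0 D, Real.exp (κ * hh P z 0 d) = 1 := by
        intro d _
        have h0 : hh P z 0 d = 0 := by
          unfold hh
          rw [Finset.filter_false_of_mem, Finset.sum_empty]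
          intro l hl h
          have := hz l hl
          have := h.2
          omega
        rw [h0, mul_zero, Real.exp_zero]
      rw [Finset.sum_congr rfl this, Finset.sum_const, Nat.card_Ioc, nsmul_eq_mul]
      simp
    | succ j ih =>
      set H : ℝ := Real.log ((j : ℝ) + 2) + C₀ with hH
      have hlog0 : 0 ≤ Real.log ((j : ℝ) + 2) := Real.log_nonneg (by
        have : (0 : ℝ) ≤ j := Nat.cast_nonneg j
        linarith)
      have hH0 : 0 ≤ H := by
        rw [hH]
        linarith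
      have hPj := hP (j + 1)
      have hPj' : ∑ l ∈ P.filter (fun l => z l < 2 ^ (j + 1)), (1 : ℝ) / l ≤ H := by
        refine hPj.trans (le_of_eq ?_)
        rw [hH]
        push_cast
        ring_nf
      have hle : ∀ d, hh P z (j + 1) d ≤ H := by
        intro d
        refine le_trans ?_ hPj'
        unfold hh
        refine Finset.sum_le_sum_of_subset_of_nonneg ?_ (fun _ _ _ => by positivity)
        intro l hl
        rw [Finset.mem_filter] at hl ⊢
        exact ⟨hl.1, hl.2.2⟩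
      have hdiff : ∀ d, hh P z (j + 1) d - hh P z j d =
          ∑ l ∈ (P.filter (fun l => z l < 2 ^ (j + 1) ∧ 2 ^ j ≤ z l)).filter (fun l => z l ∣ d), (1 : ℝ) / l := by
        intro d
        have e : P.filter (fun l => z l ∣ d ∧ z l < 2 ^ (j + 1)) = P.filter (fun l => z l ∣ d ∧ z l < 2 ^ j) ∪
            (P.filter (fun l => z l < 2 ^ (j + 1) ∧ 2 ^ j ≤ z l)).filter (fun l => z l ∣ d) := by
          ext l
          simp only [Finset.mem_union, Finset.mem_filter]
          constructor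
          · rintro ⟨h1, h2, h3⟩
            by_cases h4 : z l < 2 ^ j
            · exact Or.inl ⟨h1, h2, h4⟩
            · exact Or.inr ⟨⟨h1, h3, by omega⟩, h2⟩
          · rintro (⟨h1, h2, h3⟩ | ⟨⟨h1, h2, h3⟩, h4⟩)
            · exact ⟨h1, h2, h3.trans_le (Nat.pow_le_pow_right (by norm_num) (by omega))⟩
            · exact ⟨h1, h4, h2⟩
        have hdis : Disjoint (P.filter (fun l => z l ∣ d ∧ z l < 2 ^ j))
            ((P.filter (fun l => z l < 2 ^ (j + 1) ∧ 2 ^ j ≤ z l)).filter (fun l => z l ∣ d)) := by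
          rw [Finset.disjoint_left]
          intro l h1 h2
          rw [Finset.mem_filter] at h1
          rw [Finset.mem_filter, Finset.mem_filter] at h2
          omega
        unfold hh
        rw [e, Finset.sum_union hdis]
        ring
      have hsum : ∑ d ∈ Ioc 0 D, (hh P z (j + 1) d - hh P z j d) ≤ (1 / 2) ^ j * H * D := by
        rw [Finset.sum_congr rfl fun d _ => hdiff d]
        have e1 : ∀ d, ∑ l ∈ (P.filter (fun l => z l < 2 ^ (j + 1) ∧ 2 ^ j ≤ z l)).filter (fun l => z l ∣ d),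
            (1 : ℝ) / l = ∑ l ∈ P.filter (fun l => z l < 2 ^ (j + 1) ∧ 2 ^ j ≤ z l),
              if z l ∣ d then (1 : ℝ) / l else 0 := fun d => by rw [Finset.sum_filter]
        rw [Finset.sum_congr rfl fun d _ => e1 d, Finset.sum_comm]
        have e2 : ∀ l ∈ P.filter (fun l => z l < 2 ^ (j + 1) ∧ 2 ^ j ≤ z l),
            (∑ d ∈ Ioc 0 D, if z l ∣ d then (1 : ℝ) / l else 0) ≤ (1 / 2) ^ j * D * (1 / l) := by
          intro l hl
          rw [Finset.mem_filter] at hl
          rw [← Finset.sum_filter, Finset.sum_const, Nat.Ioc_filter_dvd_card_eq_div, nsmul_eq_mul]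
          refine mul_le_mul_of_nonneg_right ?_ (by positivity)
          refine Nat.cast_div_le.trans ?_
          have h1 : (2 : ℝ) ^ j ≤ z l := by exact_mod_cast hl.2.2
          have h2 : (0 : ℝ) < (2 : ℝ) ^ j := by positivity
          rw [div_le_iff₀ (by linarith)]
          have h3 : (1 / 2 : ℝ) ^ j * (2 : ℝ) ^ j = 1 := by
            rw [← mul_pow]
            norm_num
          calc (D : ℝ) = (1 / 2 : ℝ) ^ j * (2 : ℝ) ^ j * D := by rw [h3, one_mul]
            _ = (1 / 2) ^ j * D * (2 : ℝ) ^ j := by ring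
            _ ≤ (1 / 2) ^ j * D * z l := mul_le_mul_of_nonneg_left h1 (by positivity)
        refine (Finset.sum_le_sum e2).trans ?_
        rw [← Finset.mul_sum]
        have h3 : ∑ l ∈ P.filter (fun l => z l < 2 ^ (j + 1) ∧ 2 ^ j ≤ z l), (1 : ℝ) / l ≤ H := by
          refine le_trans ?_ hPj'
          refine Finset.sum_le_sum_of_subset_of_nonneg ?_ (fun _ _ _ => by positivity)
          intro l hl
          rw [Finset.mem_filter] at hl ⊢
          exact ⟨hl.1, hl.2.1⟩
        calc (1 / 2 : ℝ) ^ j * D * ∑ l ∈ P.filter (fun l => z l < 2 ^ (j + 1) ∧ 2 ^ j ≤ z l), (1 : ℝ) / l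
            ≤ (1 / 2 : ℝ) ^ j * D * H := mul_le_mul_of_nonneg_left h3 (by positivity)
          _ = _ := by ring
      have hstep : ∀ d ∈ Ioc 0 D, Real.exp (κ * hh P z (j + 1) d) ≤
          Real.exp (κ * hh P z j d) + κ * Real.exp (κ * H) * (hh P z (j + 1) d - hh P z j d) := by
        intro d _
        have h1 := exp_step (κ * hh P z j d) (κ * hh P z (j + 1) d)
        have h2 : 0 ≤ hh P z (j + 1) d - hh P z j d := by
          rw [hdiff]
          exact Finset.sum_nonneg fun _ _ => by positivity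
        have h3 : Real.exp (κ * hh P z (j + 1) d) ≤ Real.exp (κ * H) :=
          Real.exp_le_exp.2 (mul_le_mul_of_nonneg_left (hle d) (Nat.cast_nonneg κ))
        calc Real.exp (κ * hh P z (j + 1) d) ≤ Real.exp (κ * hh P z j d) +
              (κ * hh P z (j + 1) d - κ * hh P z j d) * Real.exp (κ * hh P z (j + 1) d) := h1
          _ = Real.exp (κ * hh P z j d) +
              κ * (hh P z (j + 1) d - hh P z j d) * Real.exp (κ * hh P z (j + 1) d) := by ring
          _ ≤ Real.exp (κ * hh P z j d) + κ * (hh P z (j + 1) d - hh P z j d) * Real.exp (κ * H) := by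
              have := mul_le_mul_of_nonneg_left h3 (mul_nonneg (Nat.cast_nonneg (α := ℝ) κ) h2)
              linarith
          _ = _ := by ring
      have hexpH : Real.exp (κ * H) = Real.exp (κ * C₀) * ((j + 2 : ℕ) : ℝ) ^ κ := by
        rw [hH, mul_add, Real.exp_add, mul_comm (Real.exp (κ * C₀)), ← Real.log_pow, Real.exp_log (by positivity)]
        push_cast
        rfl
      have hHle : H ≤ (1 + C₀) * ((j + 2 : ℕ) : ℝ) := by
        rw [hH]
        have h1 : Real.log ((j : ℝ) + 2) ≤ (j : ℝ) + 2 - 1 := Real.log_le_sub_one_of_pos (by positivity)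
        push_cast
        nlinarith [mul_nonneg hC₀ (Nat.cast_nonneg (α := ℝ) j)]
      calc ∑ d ∈ Ioc 0 D, Real.exp (κ * hh P z (j + 1) d)
          ≤ ∑ d ∈ Ioc 0 D, (Real.exp (κ * hh P z j d) +
              κ * Real.exp (κ * H) * (hh P z (j + 1) d - hh P z j d)) := Finset.sum_le_sum hstep
        _ = ∑ d ∈ Ioc 0 D, Real.exp (κ * hh P z j d) +
              κ * Real.exp (κ * H) * ∑ d ∈ Ioc 0 D, (hh P z (j + 1) d - hh P z j d) := by
            rw [Finset.sum_add_distrib, ← Finset.mul_sum]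
        _ ≤ (1 + ∑ i ∈ range j, bb κ C₀ i) * D + κ * Real.exp (κ * H) * ((1 / 2) ^ j * H * D) :=
            add_le_add ih (mul_le_mul_of_nonneg_left hsum (by positivity))
        _ ≤ (1 + ∑ i ∈ range j, bb κ C₀ i) * D + bb κ C₀ j * D := by
            have h1 : κ * Real.exp (κ * H) * ((1 / 2) ^ j * H * D) ≤ bb κ C₀ j * D := by
              rw [hexpH]
              unfold bb
              calc (κ : ℝ) * (Real.exp (κ * C₀) * ((j + 2 : ℕ) : ℝ) ^ κ) * ((1 / 2) ^ j * H * D)
                  = (κ * Real.exp (κ * C₀) * ((j + 2 : ℕ) : ℝ) ^ κ * (1 / 2) ^ j * D) * H := by ring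
                _ ≤ (κ * Real.exp (κ * C₀) * ((j + 2 : ℕ) : ℝ) ^ κ * (1 / 2) ^ j * D) *
                    ((1 + C₀) * ((j + 2 : ℕ) : ℝ)) := mul_le_mul_of_nonneg_left hHle (by positivity)
                _ = _ := by ring
            linarith
        _ = _ := by rw [Finset.sum_range_succ]; ring
  -- a large `j`
  obtain ⟨J, hJ⟩ : ∃ J : ℕ, ∀ l ∈ P, z l < 2 ^ J := by
    refine ⟨P.sup z, fun l hl => ?_⟩
    exact (Finset.le_sup (f := z) hl).trans_lt (Nat.lt_two_pow_self)
  have e : ∀ d ∈ Ioc 0 D, Real.exp (κ * ∑ l ∈ P.filter (fun l => z l ∣ d), (1 : ℝ) / l) =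
      Real.exp (κ * hh P z J d) := by
    intro d _
    unfold hh
    congr 2
    refine Finset.sum_congr ?_ fun _ _ => rfl
    refine Finset.filter_congr fun l hl => ?_
    exact ⟨fun h => ⟨h, hJ l hl⟩, fun h => h.1⟩
  rw [Finset.sum_congr rfl e]
  refine (key J).trans ?_
  refine mul_le_mul_of_nonneg_right ?_ (Nat.cast_nonneg D)
  have := (bb_summable κ C₀).sum_le_tsum (range J) (fun i _ => bb_nonneg κ hC₀ i)
  linarith

end Pool.Agent.T9h55.PI
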