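import Pool.Agent.T9h55.PI.Z
import Pool.Agent.N75.OW.SG

/-! Pairs of prime terms of sequences with the recurrence of the Fibonacci numbers (helper55). -/

set_option autoImplicit false

namespace Pool.Agent.T9h55.PI

open Finset

/-- the sequence with the initial values `a`, `b` and the recurrence of the Fibonacci numbers -/
def T (a b : ℕ) : ℕ → ℕ
  | 0 => a
  | 1 => b
  | (n + 2) => T a b (n + 1) + T a b n

lemma T_eq (a b n : ℕ) : T a b (n + 1) = a * Nat.fib n + b * Nat.fib (n + 1) := by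
  induction n using Nat.twoStepInduction with
  | zero => simp [T]
  | one => simp [T, add_comm]
  | more n h1 h2 =>
    show T a b (n + 2) + T a b (n + 1) = _
    rw [h1, h2, Nat.fib_add_two (n := n), Nat.fib_add_two (n := n + 1), Nat.fib_add_two (n := n)]
    ring

lemma T_eq' (a b : ℕ) {n : ℕ} (hn : 1 ≤ n) : T a b n = a * Nat.fib (n - 1) + b * Nat.fib n := by
  obtain ⟨k, rfl⟩ : ∃ k, n = k + 1 := ⟨n - 1, by omega⟩
  exact T_eq a b k

lemma T_shift (a b m d : ℕ) : T a b (m + (d + 1)) = T a b m * Nat.fib d + T a b (m + 1) * Nat.fib (d + 1) := by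
  induction d using Nat.twoStepInduction with
  | zero => simp
  | one =>
    show T a b (m + 1) + T a b m = _
    simp [add_comm]
  | more d h1 h2 =>
    show T a b (m + (d + 2)) + T a b (m + (d + 1)) = _
    have h2' : T a b (m + (d + 2)) = T a b m * Nat.fib (d + 1) + T a b (m + 1) * Nat.fib (d + 2) := h2
    rw [h1, h2']
    have e1 : Nat.fib (d + 2) = Nat.fib d + Nat.fib (d + 1) := Nat.fib_add_two
    have e2 : Nat.fib (d + 2 + 1) = Nat.fib (d + 1) + Nat.fib (d + 2) := Nat.fib_add_two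
    have e3 : T a b m * Nat.fib (d + 2) = T a b m * Nat.fib d + T a b m * Nat.fib (d + 1) := by
      rw [e1, Nat.mul_add]
    rw [e2, e3]
    ring

lemma back {l a b m : ℕ} (h1 : l ∣ T a b m) (h2 : l ∣ T a b (m + 1)) : l ∣ a := by
  induction m with
  | zero => exact h1
  | succ m ih =>
    refine ih ?_ h1
    have e : T a b (m + 1 + 1) = T a b (m + 1) + T a b m := rfl
    rw [e] at h2
    exact (Nat.dvd_add_right h1).1 h2

/-- common prime factors of two terms -/
lemma common {l a b m n : ℕ} (hl : l.Prime) (hmn : m < n) (h1 : l ∣ T a b m) (h2 : l ∣ T a b n) :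
    l ∣ Nat.fib (n - m) ∨ l ∣ a := by
  obtain ⟨d, rfl⟩ : ∃ d, n = m + (d + 1) := ⟨n - m - 1, by omega⟩
  rw [T_shift] at h2
  have h3 : l ∣ T a b (m + 1) * Nat.fib (d + 1) := (Nat.dvd_add_right (h1.mul_right _)).1 h2
  rcases (Nat.Prime.dvd_mul hl).1 h3 with h4 | h4
  · exact Or.inr (back h1 h4)
  · left
    have : m + (d + 1) - m = d + 1 := by omega
    rwa [this]

/-- the roots modulo `l` -/
def Rt (a n l : ℕ) : Finset ℕ := (range l).filter (fun r => ¬ l ∣ Nat.fib n ∧ l ∣ T a r n)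

lemma Rt_card_le {a n l : ℕ} (hl : l.Prime) (hn : 1 ≤ n) : (Rt a n l).card ≤ 1 := by
  rw [Finset.card_le_one]
  intro r hr s hs
  unfold Rt at hr hs
  rw [mem_filter, mem_range, T_eq' _ _ hn] at hr hs
  wlog h : r ≤ s generalizing r s
  · exact (this s hs r hr (by omega)).symm
  have h1 : l ∣ (s - r) * Nat.fib n := by
    have e : a * Nat.fib (n - 1) + s * Nat.fib n = (a * Nat.fib (n - 1) + r * Nat.fib n) + (s - r) * Nat.fib n := by
      obtain ⟨t, rfl⟩ : ∃ t, s = r + t := ⟨s - r, by omega⟩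
      rw [Nat.add_sub_cancel_left]
      ring
    have h2 := hs.2.2
    rw [e] at h2
    exact (Nat.dvd_add_right hr.2.2).1 h2
  rcases (Nat.Prime.dvd_mul hl).1 h1 with h2 | h2
  · have := Nat.eq_zero_of_dvd_of_lt h2 (by omega)
    omega
  · exact absurd h2 hr.2.1

lemma Rt_card {a n l : ℕ} (hl : l.Prime) (hn : 1 ≤ n) (hd : ¬ l ∣ Nat.fib n) : 1 ≤ (Rt a n l).card := by
  rw [Nat.one_le_iff_ne_zero, Ne, Finset.card_eq_zero]
  intro h0
  have hcop : Nat.Coprime (Nat.fib n) l := (Nat.coprime_comm.1 ((Nat.Prime.coprime_iff_not_dvd hl).2 hd))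
  -- an inverse
  obtain ⟨v, hv⟩ : ∃ v : ℕ, Nat.fib n * v ≡ 1 [MOD l] := by
    obtain ⟨v, -, hv⟩ := Nat.exists_mul_mod_eq_one_of_coprime hcop hl.one_lt
    exact ⟨v, by unfold Nat.ModEq; rw [hv, Nat.mod_eq_of_lt hl.one_lt]⟩
  have hr : ((l - 1) * a * Nat.fib (n - 1) * v) % l ∈ Rt a n l := by
    unfold Rt
    rw [mem_filter, mem_range]
    refine ⟨Nat.mod_lt _ hl.pos, hd, ?_⟩
    rw [T_eq' _ _ hn, ← Nat.modEq_zero_iff_dvd]
    have h1 : ((l - 1) * a * Nat.fib (n - 1) * v) % l * Nat.fib n ≡ (l - 1) * a * Nat.fib (n - 1) [MOD l] := by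
      calc ((l - 1) * a * Nat.fib (n - 1) * v) % l * Nat.fib n
          ≡ ((l - 1) * a * Nat.fib (n - 1) * v) * Nat.fib n [MOD l] := (Nat.mod_modEq _ _).mul_right _
        _ = ((l - 1) * a * Nat.fib (n - 1)) * (Nat.fib n * v) := by ring
        _ ≡ ((l - 1) * a * Nat.fib (n - 1)) * 1 [MOD l] := hv.mul_left _
        _ = _ := mul_one _
    calc a * Nat.fib (n - 1) + ((l - 1) * a * Nat.fib (n - 1) * v) % l * Nat.fib n
        ≡ a * Nat.fib (n - 1) + (l - 1) * a * Nat.fib (n - 1) [MOD l] := h1.add_left _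
      _ = l * (a * Nat.fib (n - 1)) := by
          obtain ⟨t, rfl⟩ : ∃ t, l = t + 1 := ⟨l - 1, by have := hl.pos; omega⟩
          rw [Nat.add_sub_cancel]
          ring
      _ ≡ 0 [MOD l] := (Nat.modEq_zero_iff_dvd).2 (Dvd.intro _ rfl)
  rw [h0] at hr
  exact absurd hr (Finset.notMem_empty _)

/-- the deficiency -/
lemma defi {a m n l : ℕ} (hl : l.Prime) (hm : 1 ≤ m) (hmn : m < n) :
    (2 : ℝ) - ((Rt a m l ∪ Rt a n l).card : ℝ) ≤ (if l ∣ Nat.fib n then 1 else 0) + (if l ∣ Nat.fib m then 1 else 0) +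
      (if l ∣ a then 1 else 0) + (if l ∣ Nat.fib (n - m) then 1 else 0) := by
  have hn : 1 ≤ n := by omega
  have hi : ∀ p : Prop, [Decidable p] → (0 : ℝ) ≤ if p then 1 else 0 := fun p _ => by split_ifs <;> norm_num
  by_cases h1 : l ∣ Nat.fib n
  · by_cases h2 : l ∣ Nat.fib m
    · rw [if_pos h1, if_pos h2]
      have h3 := hi (l ∣ a)
      have h4 := hi (l ∣ Nat.fib (n - m))
      have h5 : (0 : ℝ) ≤ ((Rt a m l ∪ Rt a n l).card : ℝ) := Nat.cast_nonneg _
      linarith
    · rw [if_pos h1, if_neg h2]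
      have h3 := hi (l ∣ a)
      have h4 := hi (l ∣ Nat.fib (n - m))
      have h5 : 1 ≤ (Rt a m l ∪ Rt a n l).card :=
        (Rt_card hl hm h2).trans (Finset.card_le_card Finset.subset_union_left)
      have h6 : (1 : ℝ) ≤ ((Rt a m l ∪ Rt a n l).card : ℝ) := by exact_mod_cast h5
      linarith
  · have h5 : 1 ≤ (Rt a m l ∪ Rt a n l).card :=
      (Rt_card hl hn h1).trans (Finset.card_le_card Finset.subset_union_right)
    have h6 : (1 : ℝ) ≤ ((Rt a m l ∪ Rt a n l).card : ℝ) := by exact_mod_cast h5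
    rw [if_neg h1]
    by_cases h2 : l ∣ Nat.fib m
    · rw [if_pos h2]
      have h3 := hi (l ∣ a)
      have h4 := hi (l ∣ Nat.fib (n - m))
      linarith
    · rw [if_neg h2]
      by_cases h3 : l ∣ a
      · rw [if_pos h3]
        have h4 := hi (l ∣ Nat.fib (n - m))
        linarith
      · by_cases h4 : l ∣ Nat.fib (n - m)
        · rw [if_pos h4, if_neg h3]
          linarith
        · rw [if_neg h4, if_neg h3]
          have hdis : Disjoint (Rt a m l) (Rt a n l) := by
            rw [Finset.disjoint_left]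
            intro r hr1 hr2
            unfold Rt at hr1 hr2
            rw [mem_filter] at hr1 hr2
            rcases common hl hmn hr1.2.2 hr2.2.2 with h | h
            · exact h4 h
            · exact h3 h
          have h7 : 2 ≤ (Rt a m l ∪ Rt a n l).card := by
            rw [Finset.card_union_of_disjoint hdis]
            have := Rt_card (a := a) hl hm h2
            have := Rt_card (a := a) hl hn h1
            omega
          have h8 : (2 : ℝ) ≤ ((Rt a m l ∪ Rt a n l).card : ℝ) := by exact_mod_cast h7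
          linarith

/-- **the number of the `b` for which two terms are prime** -/
theorem pair_bound : ∃ C : ℝ, 1 ≤ C ∧ ∃ B₀ : ℕ, ∀ B : ℕ, B₀ ≤ B → ∀ a m n : ℕ, 1 ≤ m → m < n →
    (((Ioc 0 B).filter (fun b => (T a b m).Prime ∧ (T a b n).Prime)).card : ℝ) ≤
      C * (B / (Real.log B) ^ 2) * Real.exp (hf B (Nat.fib n) + hf B (Nat.fib m) + hf B a + hf B (Nat.fib (n - m))) := by
  obtain ⟨C0, hC0, hSV⟩ := Pool.Agent.N136.OW.sv2 Pool.Agent.N75.OW.sg
  obtain ⟨D, hD, hSV⟩ := hSV C0 le_rfl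
  have hl4 : 0 < Real.log 4 := Real.log_pos (by norm_num)
  refine ⟨D ^ 2 * (2 * Real.log 4) ^ 2 + 16, ?_, ?_⟩
  · have : 0 ≤ D ^ 2 * (2 * Real.log 4) ^ 2 := by positivity
    linarith
  -- large `B`
  obtain ⟨B₀, hB₀⟩ : ∃ B₀ : ℕ, ∀ B ≥ B₀, C0 * 2 * Real.log 4 ≤ Real.log B := by
    have h := (Real.tendsto_log_atTop.comp tendsto_natCast_atTop_atTop).eventually_ge_atTop (C0 * 2 * Real.log 4)
    exact Filter.eventually_atTop.1 h
  refine ⟨max B₀ 4, fun B hB a m n hm hmn => ?_⟩
  have hB1 := hB₀ B ((le_max_left _ _).trans hB)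
  have hB4 : 4 ≤ B := (le_max_right _ _).trans hB
  have hBR : (4 : ℝ) ≤ B := by exact_mod_cast hB4
  have hn : 1 ≤ n := by omega
  set E : ℝ := hf B (Nat.fib n) + hf B (Nat.fib m) + hf B a + hf B (Nat.fib (n - m)) with hE
  have hE0 : 0 ≤ E := by
    have h1 := hf_nonneg B (Nat.fib n)
    have h2 := hf_nonneg B (Nat.fib m)
    have h3 := hf_nonneg B a
    have h4 := hf_nonneg B (Nat.fib (n - m))
    linarith
  have hlB : 0 < Real.log B := Real.log_pos (by linarith)
  set A : Finset ℕ := (Ioc 0 B).filter (fun b => ((T a b m).Prime ∧ (T a b n).Prime) ∧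
    Real.log B < C0 * 2 * Real.log b) with hA
  have hb_le : ∀ b k : ℕ, 1 ≤ k → b ≤ T a b k := by
    intro b k hk
    rw [T_eq' _ _ hk]
    have : 1 ≤ Nat.fib k := Nat.fib_pos.2 (by omega)
    nlinarith
  have h := hSV 2 B 4 E (fun l => Rt a m l ∪ Rt a n l) A (by norm_num) (by norm_num) (by norm_num)
    (by push_cast; exact hB1) ?_ ?_ ?_ ?_
  · -- the remaining `b`
    have hsub : (Ioc 0 B).filter (fun b => (T a b m).Prime ∧ (T a b n).Prime) ⊆
        A ∪ (Ioc 0 B).filter (fun b => b ^ 2 ≤ B) := by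
      intro b hb
      rw [mem_filter, mem_Ioc] at hb
      rw [mem_union, hA, mem_filter, mem_filter, mem_Ioc]
      by_cases h1 : Real.log B < C0 * 2 * Real.log b
      · exact Or.inl ⟨hb.1, hb.2, h1⟩
      · refine Or.inr ⟨hb.1, ?_⟩
        push Not at h1
        have hb1 : (1 : ℝ) ≤ b := by exact_mod_cast hb.1.1
        have h2 : Real.log ((b : ℝ) ^ 2) ≤ Real.log B := by
          rw [Real.log_pow]
          push_cast
          have h3 : 0 ≤ Real.log b := Real.log_nonneg hb1
          nlinarith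
        have h3 := (Real.log_le_log_iff (by positivity) (by linarith)).1 h2
        exact_mod_cast h3
    have hsm : (((Ioc 0 B).filter (fun b => b ^ 2 ≤ B)).card : ℝ) ≤ Real.sqrt B := by
      have h1 : (Ioc 0 B).filter (fun b => b ^ 2 ≤ B) ⊆ Ioc 0 (Nat.sqrt B) := by
        intro b hb
        rw [mem_filter, mem_Ioc] at hb
        rw [mem_Ioc]
        refine ⟨hb.1.1, ?_⟩
        rw [Nat.le_sqrt]
        nlinarith [hb.2]
      have h2 := Finset.card_le_card h1
      rw [Nat.card_Ioc, Nat.sub_zero] at h2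
      calc (((Ioc 0 B).filter (fun b => b ^ 2 ≤ B)).card : ℝ) ≤ (Nat.sqrt B : ℝ) := by exact_mod_cast h2
        _ ≤ Real.sqrt B := Real.nat_sqrt_le_real_sqrt
    have hsq : Real.sqrt B ≤ 16 * (B / (Real.log B) ^ 2) := by
      -- `log B ≤ 4 B ^ (1 / 4)`
      set r : ℝ := Real.sqrt (Real.sqrt B) with hr
      have hr0 : 0 < r := by rw [hr]; positivity
      have hr4 : r ^ 4 = B := by
        rw [hr, show 4 = 2 * 2 by norm_num, pow_mul, Real.sq_sqrt (by positivity), Real.sq_sqrt (by positivity)]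
      have hr2 : r ^ 2 = Real.sqrt B := by rw [hr, Real.sq_sqrt (by positivity)]
      have h1 : Real.log B ≤ 4 * r := by
        rw [← hr4, Real.log_pow]
        have := Real.log_le_sub_one_of_pos hr0
        push_cast
        linarith
      rw [← mul_div_assoc, le_div_iff₀ (by positivity), ← hr2, ← hr4]
      have h2 : (Real.log (r ^ 4)) ^ 2 ≤ (4 * r) ^ 2 := by
        rw [hr4]
        exact pow_le_pow_left₀ hlB.le h1 2
      nlinarith [mul_le_mul_of_nonneg_left h2 (sq_nonneg r)]
    have hexp : 1 ≤ Real.exp E := Real.one_le_exp hE0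
    calc (((Ioc 0 B).filter (fun b => (T a b m).Prime ∧ (T a b n).Prime)).card : ℝ)
        ≤ ((A ∪ (Ioc 0 B).filter (fun b => b ^ 2 ≤ B)).card : ℝ) := by exact_mod_cast Finset.card_le_card hsub
      _ ≤ (A.card : ℝ) + (((Ioc 0 B).filter (fun b => b ^ 2 ≤ B)).card : ℝ) := by
          exact_mod_cast Finset.card_union_le _ _
      _ ≤ D ^ 2 * Real.exp E * (2 * Real.log 4 / Real.log B) ^ 2 * B + 16 * (B / (Real.log B) ^ 2) := by
          push_cast at h
          exact add_le_add h (hsm.trans hsq)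
      _ ≤ D ^ 2 * Real.exp E * (2 * Real.log 4 / Real.log B) ^ 2 * B + 16 * (B / (Real.log B) ^ 2) * Real.exp E := by
          have h1 : 0 ≤ 16 * (B / (Real.log B) ^ 2) := by positivity
          nlinarith
      _ = (D ^ 2 * (2 * Real.log 4) ^ 2 + 16) * (B / (Real.log B) ^ 2) * Real.exp E := by
          rw [div_pow]
          ring
  · intro b hb
    rw [hA, mem_filter, mem_Ioc] at hb
    rw [mem_Icc]
    exact ⟨hb.1.1, hb.1.2⟩
  · intro l hl hl4'
    constructor
    · refine Finset.union_subset ?_ ?_ <;> exact Finset.filter_subset _ _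
    · refine (Finset.card_union_le _ _).trans ?_
      have := Rt_card_le (a := a) hl hm
      have := Rt_card_le (a := a) hl hn
      omega
  · intro b hb l hl hl4' hlB' hmem
    rw [hA, mem_filter, mem_Ioc] at hb
    obtain ⟨⟨hb0, hbB⟩, ⟨hp1, hp2⟩, hblog⟩ := hb
    have key : ∀ k, 1 ≤ k → (T a b k).Prime → b % l ∉ Rt a k l := by
      intro k hk hp hmem'
      unfold Rt at hmem'
      rw [mem_filter] at hmem'
      have h1 : l ∣ T a b k := by
        have h2 := hmem'.2.2
        rw [T_eq' _ _ hk] at h2 ⊢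
        rw [← Nat.modEq_zero_iff_dvd] at h2 ⊢
        exact (((Nat.mod_modEq b l).symm.mul_right _).add_left _).trans h2
      have h2 : l = T a b k := (Nat.prime_dvd_prime_iff_eq hl hp).1 h1
      have h3 : b ≤ l := by rw [h2]; exact hb_le b k hk
      have h4 : Real.log b ≤ Real.log l :=
        Real.log_le_log (by exact_mod_cast hb0) (by exact_mod_cast h3)
      push_cast at hlB'
      have h5 : C0 * 2 * Real.log b ≤ C0 * 2 * Real.log l := mul_le_mul_of_nonneg_left h4 (by linarith)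
      linarith
    rcases Finset.mem_union.1 hmem with h1 | h1
    · exact key m hm hp1 h1
    · exact key n hn hp2 h1
  · -- the deficiency
    have h1 : ∀ l ∈ (Ioc 4 B).filter Nat.Prime, (((2 : ℕ) : ℝ) - ((Rt a m l ∪ Rt a n l).card : ℝ)) / l ≤
        (if l ∣ Nat.fib n then 1 / (l : ℝ) else 0) + (if l ∣ Nat.fib m then 1 / (l : ℝ) else 0) +
        (if l ∣ a then 1 / (l : ℝ) else 0) + (if l ∣ Nat.fib (n - m) then 1 / (l : ℝ) else 0) := by
      intro l hl
      rw [mem_filter] at hl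
      have hl0 : (0 : ℝ) < l := by exact_mod_cast hl.2.pos
      have h2 := defi (a := a) hl.2 hm hmn
      rw [div_le_iff₀ hl0]
      refine (show (((2 : ℕ) : ℝ) - ((Rt a m l ∪ Rt a n l).card : ℝ)) ≤ _ by push_cast; exact h2).trans (le_of_eq ?_)
      rw [add_mul, add_mul, add_mul]
      have e : ∀ p : Prop, [Decidable p] → (if p then (1 : ℝ) / l else 0) * l = if p then 1 else 0 := by
        intro p _
        split_ifs
        · field_simp
        · simp
      rw [e, e, e, e]
    refine (Finset.sum_le_sum h1).trans (le_of_eq ?_)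
    have e : ∀ v : ℕ, ∑ l ∈ (Ioc 4 B).filter Nat.Prime, (if l ∣ v then 1 / (l : ℝ) else 0) = hf B v := by
      intro v
      unfold hf
      rw [Finset.sum_filter (fun l => l ∣ v)]
    rw [Finset.sum_add_distrib, Finset.sum_add_distrib, Finset.sum_add_distrib, e, e, e, e]

end Pool.Agent.T9h55.PI
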