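import Pool.Agent.T9h55.PI.R
import Pool.Agent.N136.OW.SV
import Pool.Agent.N176.OW.TU2

/-! Exponential moments of the sums of `1 / l` over the prime factors of `d` and of the Fibonacci numbers
(helper55). -/

set_option autoImplicit false

namespace Pool.Agent.T9h55.PI

open Finset
open Pool.Agent.N176.OW.TU2 (sum_primes)

/-- the sum of `1 / l` over the prime factors `4 < l ≤ B` of `v` -/
noncomputable def hf (B v : ℕ) : ℝ := ∑ l ∈ ((Ioc 4 B).filter Nat.Prime).filter (fun l => l ∣ v), 1 / (l : ℝ)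

lemma hf_nonneg (B v : ℕ) : 0 ≤ hf B v := Finset.sum_nonneg fun _ _ => by positivity

lemma fib_le_two_pow (n : ℕ) : Nat.fib n ≤ 2 ^ n := by
  induction n using Nat.twoStepInduction with
  | zero => norm_num
  | one => norm_num
  | more n h1 h2 =>
    rw [Nat.fib_add_two, pow_succ, pow_succ]
    rw [pow_succ] at h2
    omega

lemma two_pow_le_fib_sq (n : ℕ) : 2 ^ n ≤ (Nat.fib (n + 2)) ^ 2 := by
  induction n with
  | zero => norm_num [Nat.fib]
  | succ n ih =>
    have e : Nat.fib (n + 3) = Nat.fib (n + 1) + Nat.fib (n + 2) := Nat.fib_add_two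
    have h1 : Nat.fib (n + 2) ≤ 2 * Nat.fib (n + 1) := by
      rw [Nat.fib_add_two]
      have := Nat.fib_le_fib_succ (n := n)
      omega
    show 2 ^ (n + 1) ≤ (Nat.fib (n + 3)) ^ 2
    rw [e, pow_succ]
    nlinarith [h1, ih]

/-- Mertens, upper bound -/
lemma mertens_le : ∃ M : ℝ, 0 ≤ M ∧ ∀ N : ℕ, 2 ≤ N →
    ∑ p ∈ (Finset.Icc 1 N).filter Nat.Prime, (1 : ℝ) / p ≤ Real.log (Real.log N) + M := by
  obtain ⟨M, hM, h⟩ := Pool.Agent.N136.OW.mert2
  refine ⟨M, hM, fun N hN => ?_⟩
  have := (abs_le.1 (h N hN)).2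
  linarith

/-- the case of the integers `d` -/
theorem int_moment (κ : ℕ) : ∃ C : ℝ, 1 ≤ C ∧ ∀ B D : ℕ, ∑ d ∈ Ioc 0 D, Real.exp (κ * hf B d) ≤ C * D := by
  obtain ⟨M, hM, hMe⟩ := mertens_le
  obtain ⟨C, hC, h⟩ := expo κ M hM
  refine ⟨C, hC, fun B D => ?_⟩
  refine h ((Ioc 4 B).filter Nat.Prime) (fun l => l) ?_ ?_ D
  · intro l hl
    rw [mem_filter] at hl
    exact hl.2.one_lt.le
  · intro j
    rcases Nat.lt_or_ge j 1 with hj | hj
    · have hj0 : j = 0 := by omega
      subst hj0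
      rw [Finset.filter_false_of_mem, Finset.sum_empty]
      · simp only [Nat.cast_zero, zero_add, Real.log_one]
        exact hM
      · intro l hl h'
        rw [mem_filter, mem_Ioc] at hl
        have := hl.1.1
        simp only [pow_zero] at h'
        omega
    · have h1 := hMe (2 ^ j) (by
        calc 2 = 2 ^ 1 := rfl
          _ ≤ 2 ^ j := Nat.pow_le_pow_right (by norm_num) hj)
      have h2 : ∑ l ∈ ((Ioc 4 B).filter Nat.Prime).filter (fun l => l < 2 ^ j), (1 : ℝ) / l ≤
          ∑ p ∈ (Finset.Icc 1 (2 ^ j)).filter Nat.Prime, (1 : ℝ) / p := by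
        refine Finset.sum_le_sum_of_subset_of_nonneg ?_ (fun _ _ _ => by positivity)
        intro l hl
        rw [mem_filter, mem_filter, mem_Ioc] at hl
        rw [mem_filter, mem_Icc]
        exact ⟨⟨by omega, hl.2.le⟩, hl.1.2⟩
      refine h2.trans (h1.trans ?_)
      have h3 : Real.log (Real.log ((2 ^ j : ℕ) : ℝ)) ≤ Real.log ((j : ℝ) + 1) := by
        have hjR : (1 : ℝ) ≤ j := by exact_mod_cast hj
        have hl2 : 0 < Real.log 2 := Real.log_pos (by norm_num)
        have hl2' : Real.log 2 ≤ 1 := by have := Real.log_two_lt_d9; linarith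
        push_cast
        rw [Real.log_pow]
        refine Real.log_le_log (by positivity) ?_
        nlinarith
      linarith

open Classical in
/-- the rank of `l` -/
noncomputable def rk (l : ℕ) : ℕ := if h : ∃ n, 1 ≤ n ∧ l ∣ Nat.fib n then Nat.find h else 0

lemma rk_spec {l : ℕ} (h : ∃ n, 1 ≤ n ∧ l ∣ Nat.fib n) : 1 ≤ rk l ∧ l ∣ Nat.fib (rk l) := by
  classical
  unfold rk
  rw [dif_pos h]
  exact Nat.find_spec h

lemma rk_dvd {l d : ℕ} (h : ∃ n, 1 ≤ n ∧ l ∣ Nat.fib n) (hd : 1 ≤ d) : l ∣ Nat.fib d ↔ rk l ∣ d := by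
  classical
  have hs := rk_spec h
  constructor
  · intro h1
    have h2 : l ∣ Nat.fib (Nat.gcd (rk l) d) := by
      rw [Nat.fib_gcd]
      exact Nat.dvd_gcd hs.2 h1
    have h3 : 1 ≤ Nat.gcd (rk l) d := Nat.gcd_pos_of_pos_right _ hd
    have h4 : rk l ≤ Nat.gcd (rk l) d := by
      have : rk l = Nat.find h := by
        unfold rk
        rw [dif_pos h]
      conv_lhs => rw [this]
      exact Nat.find_min' h ⟨h3, h2⟩
    have h5 : Nat.gcd (rk l) d = rk l := le_antisymm (Nat.le_of_dvd hs.1 (Nat.gcd_dvd_left _ _)) h4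
    rw [← h5]
    exact Nat.gcd_dvd_right _ _
  · intro h1
    exact hs.2.trans (Nat.fib_dvd _ _ h1)

/-- the case of the Fibonacci numbers -/
theorem fib_moment (κ : ℕ) : ∃ C : ℝ, 1 ≤ C ∧ ∀ B D : ℕ,
    ∑ d ∈ Ioc 0 D, Real.exp (κ * hf B (Nat.fib d)) ≤ C * D := by
  classical
  obtain ⟨M, hM, hMe⟩ := mertens_le
  obtain ⟨C, hC, h⟩ := expo κ (M + 2) (by linarith)
  refine ⟨C, hC, fun B D => ?_⟩
  have h' := h (((Ioc 4 B).filter Nat.Prime).filter (fun l => ∃ n, 1 ≤ n ∧ l ∣ Nat.fib n)) rk ?_ ?_ D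
  · refine le_of_eq_of_le ?_ h'
    refine Finset.sum_congr rfl fun d hd => ?_
    rw [mem_Ioc] at hd
    congr 2
    unfold hf
    refine Finset.sum_congr ?_ fun _ _ => rfl
    ext l
    simp only [mem_filter]
    constructor
    · rintro ⟨h0, h1⟩
      have h2 : ∃ n, 1 ≤ n ∧ l ∣ Nat.fib n := ⟨d, by omega, h1⟩
      exact ⟨⟨h0, h2⟩, (rk_dvd h2 (by omega)).1 h1⟩
    · rintro ⟨⟨h0, h2⟩, h3⟩
      exact ⟨h0, (rk_dvd h2 (by omega)).2 h3⟩
  · intro l hl
    rw [mem_filter] at hl
    exact (rk_spec hl.2).1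
  · intro j
    rcases Nat.lt_or_ge j 1 with hj | hj
    · have hj0 : j = 0 := by omega
      subst hj0
      rw [Finset.filter_false_of_mem, Finset.sum_empty]
      · simp only [Nat.cast_zero, zero_add, Real.log_one]
        linarith
      · intro l hl h'
        rw [mem_filter] at hl
        have := (rk_spec hl.2).1
        simp only [pow_zero] at h'
        omega
    · obtain ⟨y, hy⟩ : ∃ y, y = 4 ^ j := ⟨_, rfl⟩
      have hy4 : 4 ≤ y := by
        rw [hy]
        calc 4 = 4 ^ 1 := rfl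
          _ ≤ 4 ^ j := Nat.pow_le_pow_right (by norm_num) hj
      have h1 := hMe y (by omega)
      obtain ⟨Q, hQ⟩ : ∃ Q, Q = ∏ i ∈ Ico 1 (2 ^ j), Nat.fib i := ⟨_, rfl⟩
      have hQ0 : 0 < Q := by
        rw [hQ]
        exact Finset.prod_pos fun i hi => Nat.fib_pos.2 (by rw [mem_Ico] at hi; omega)
      have hQle : Q ≤ 2 ^ (4 ^ j) := by
        have e1 : Q ≤ ∏ i ∈ Ico 1 (2 ^ j), 2 ^ (2 ^ j) := by
          rw [hQ]
          refine Finset.prod_le_prod' fun i hi => ?_
          rw [mem_Ico] at hi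
          exact (fib_le_two_pow i).trans (Nat.pow_le_pow_right (by norm_num) hi.2.le)
        refine e1.trans ?_
        rw [Finset.prod_const, Nat.card_Ico, ← pow_mul]
        refine Nat.pow_le_pow_right (by norm_num) ?_
        calc 2 ^ j * (2 ^ j - 1) ≤ 2 ^ j * 2 ^ j := Nat.mul_le_mul_left _ (Nat.sub_le _ _)
          _ = 4 ^ j := by rw [← mul_pow]; norm_num
      have hlQ : Real.log Q ≤ (y : ℝ) * Real.log 2 := by
        have e1 : (Q : ℝ) ≤ (2 : ℝ) ^ y := by
          rw [hy]
          exact_mod_cast hQle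
        calc Real.log Q ≤ Real.log ((2 : ℝ) ^ y) := Real.log_le_log (by exact_mod_cast hQ0) e1
          _ = _ := by rw [Real.log_pow]
      have h2 := sum_primes (y := y) (N := B) (by omega) hQ0 hlQ
      have h3 : ∑ l ∈ (((Ioc 4 B).filter Nat.Prime).filter (fun l => ∃ n, 1 ≤ n ∧ l ∣ Nat.fib n)).filter
          (fun l => rk l < 2 ^ j), (1 : ℝ) / l ≤
          ∑ p ∈ (Finset.Icc 1 y).filter Nat.Prime, (1 : ℝ) / p +
            ∑ l ∈ ((Ioc y B).filter Nat.Prime).filter (fun l => l ∣ Q), 1 / (l : ℝ) := by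
        have hdis : Disjoint ((Finset.Icc 1 y).filter Nat.Prime)
            (((Ioc y B).filter Nat.Prime).filter (fun l => l ∣ Q)) := by
          rw [Finset.disjoint_left]
          intro l h1 h2
          rw [mem_filter, mem_Icc] at h1
          rw [mem_filter, mem_filter, mem_Ioc] at h2
          omega
        rw [← Finset.sum_union hdis]
        refine Finset.sum_le_sum_of_subset_of_nonneg ?_ (fun _ _ _ => by positivity)
        intro l hl
        rw [mem_filter, mem_filter, mem_filter, mem_Ioc] at hl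
        rw [mem_union, mem_filter, mem_filter, mem_filter, mem_Icc, mem_Ioc]
        by_cases hly : l ≤ y
        · exact Or.inl ⟨⟨by omega, hly⟩, hl.1.1.2⟩
        · refine Or.inr ⟨⟨⟨by omega, hl.1.1.1.2⟩, hl.1.1.2⟩, ?_⟩
          have hs := rk_spec hl.1.2
          rw [hQ]
          exact hs.2.trans (Finset.dvd_prod_of_mem _ (mem_Ico.2 ⟨hs.1, hl.2⟩))
      have hjR : (1 : ℝ) ≤ j := by exact_mod_cast hj
      have hl2 : 0 < Real.log 2 := Real.log_pos (by norm_num)
      have hl4 : Real.log 4 = 2 * Real.log 2 := by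
        rw [show (4 : ℝ) = 2 ^ 2 by norm_num, Real.log_pow]
        norm_num
      have hyR : (4 : ℝ) ≤ y := by exact_mod_cast hy4
      have hly : Real.log 4 ≤ Real.log y := Real.log_le_log (by norm_num) hyR
      have h4 : (y : ℝ) * Real.log 2 / (Real.log y * y) ≤ 1 := by
        rw [div_le_one (by nlinarith)]
        nlinarith
      have h5 : Real.log (Real.log y) ≤ Real.log ((j : ℝ) + 1) + 1 := by
        have e1 : Real.log y = j * Real.log 4 := by
          rw [hy]
          push_cast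
          rw [Real.log_pow]
        have e2 : Real.log 4 ≤ Real.exp 1 := by
          have h6 := Real.add_one_le_exp (1 : ℝ)
          have h7 := Real.log_two_lt_d9
          rw [hl4]
          linarith
        rw [e1, Real.log_mul (by positivity) (by rw [hl4]; positivity)]
        have h6 : Real.log j ≤ Real.log ((j : ℝ) + 1) := Real.log_le_log (by positivity) (by linarith)
        have h7 : Real.log (Real.log 4) ≤ 1 := by
          calc Real.log (Real.log 4) ≤ Real.log (Real.exp 1) := Real.log_le_log (by rw [hl4]; positivity) e2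
            _ = 1 := Real.log_exp 1
        linarith
      linarith

end Pool.Agent.T9h55.PI
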